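import Pool.Agent.MP_b8ade4_gt.h67.Deg
import Mathlib.Topology.Algebra.Order.Floor

/-! The obstruction for the multiples of the loop, for abstract secant data. -/

namespace Pool.Agent.MP_b8ade4_gt

open Complex Real Set

theorem link' {m : ℝ × ℝ → ℂ} (cm : Continuous m) (em : Ess fun x => (lin x.1, m x.2))
    {a b : E4 → ℂ} (ha : Continuous a) (hb : Continuous b)
    (hab : ∀ x, ‖x‖ ≤ 1 → a x ≠ 0 ∨ b x ≠ 0)
    {β ρ : ℝ × ℝ → ℝ × ℝ} (hβ : Continuous β) (hρ : Continuous ρ)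
    (hβ1 : ∀ η, ‖η‖ ≤ 1 → ‖β η‖ < 1) {δ₁ δ₂ : ℝ}
    (hsep : ∀ η, ‖η‖ = 1 → 2 * δ₁ ≤ |(β η).1 - (ρ η).1| ∨ 2 * δ₂ ≤ |(β η).2 - (ρ η).2|)
    (d1 : 0 < δ₁) (d2 : 0 < δ₂)
    (hA : Hm (Out β δ₁ δ₂) a (fun x => lin (x.1 - β x.2)))
    (hB : Hm (Out ρ δ₁ δ₂) b (fun x => lin (x.1 - ρ x.2)))
    (hw : Hm {η : ℝ × ℝ | ‖η‖ = 1} (fun η => lin (β η - ρ η)) m) : False := by
  have nE : ∀ x : E4, ‖x‖ = 1 → ‖x.1‖ ≤ 1 ∧ ‖x.2‖ ≤ 1 ∧ (‖x.1‖ = 1 ∨ ‖x.2‖ = 1) := by
    intro x hx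
    refine ⟨(norm_fst_le x).trans hx.le, (norm_snd_le x).trans hx.le, ?_⟩
    rw [Prod.norm_def] at hx
    rcases max_choice ‖x.1‖ ‖x.2‖ with q | q
    · left; rw [← q, hx]
    · right; rw [← q, hx]
  have e1 : Ess fun x => (lin (x.1 - β x.2), lin (β x.2 - ρ x.2)) := by
    refine Ess.of_hm (Ua := {x : E4 | ‖x.1‖ = 1 ∧ ‖x.2‖ ≤ 1}) (Ub := {x : E4 | ‖x.2‖ = 1}) ?_
      (hw.comp continuous_snd fun x hx => hx) (fun x hx => ?_) (by fun_prop) (by fun_prop)
      (by fun_prop) (by fun_prop) em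
    · refine ⟨fun q => lin (q.2.1 - (1 - q.1) • β q.2.2), by fun_prop, fun x _ => by simp,
        fun x _ => by simp, fun τ hτ x hx h => ?_⟩
      have h3 := sub_eq_zero.1 (lin_eq_zero h)
      have h4 := hx.1
      simp only at h3
      rw [h3, norm_smul, Real.norm_of_nonneg (by linarith [hτ.2])] at h4
      nlinarith [hβ1 _ hx.2, hτ.1, norm_nonneg (β x.2)]
    · obtain ⟨x1, x2, h | h⟩ := nE x hx
      · exact Or.inl ⟨h, x2⟩
      · exact Or.inr h
  have e2 : Ess fun x => (lin (x.1 - β x.2), lin (x.1 - ρ x.2)) := by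
    refine Ess.of_homotopy (fun q => (lin (q.2.1 - β q.2.2),
      lin (q.2.1 - ρ q.2.2 - q.1 • (q.2.1 - β q.2.2)))) (by fun_prop) (fun x _ => by simp)
      (fun x _ => by simp) (fun τ _ x hx h => ?_) e1
    have h3 := lin_eq_zero (congrArg Prod.fst h)
    have h4 := lin_eq_zero (congrArg Prod.snd h)
    simp only at h3 h4
    rw [h3, smul_zero, sub_zero] at h4
    obtain ⟨x1, x2, h5 | h5⟩ := nE x hx
    · rw [sub_eq_zero.1 h3] at h5; exact (hβ1 _ x2).ne h5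
    · have := hsep _ h5
      rw [← sub_eq_zero.1 h3, ← sub_eq_zero.1 h4] at this
      simp only [sub_self, abs_zero] at this
      rcases this with q | q <;> linarith
  have e3 : Ess fun x => (a x, b x) := by
    refine Ess.of_hm hA hB (fun x hx => ?_) ha hb (by fun_prop) (by fun_prop) e2
    obtain ⟨x1, x2, h | h⟩ := nE x hx
    · exact Or.inl ⟨x1, x2, Or.inl h⟩
    · by_contra hc
      rw [not_or] at hc
      have c1 : ¬ (δ₁ ≤ |x.1.1 - (β x.2).1| ∨ δ₂ ≤ |x.1.2 - (β x.2).2|) :=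
        fun q => hc.1 ⟨x1, x2, Or.inr ⟨h, q⟩⟩
      have c2 : ¬ (δ₁ ≤ |x.1.1 - (ρ x.2).1| ∨ δ₂ ≤ |x.1.2 - (ρ x.2).2|) :=
        fun q => hc.2 ⟨x1, x2, Or.inr ⟨h, q⟩⟩
      push Not at c1 c2
      have q1 := abs_lt.1 c1.1; have q2 := abs_lt.1 c1.2
      have q3 := abs_lt.1 c2.1; have q4 := abs_lt.1 c2.2
      rcases hsep _ h with q | q <;> rcases le_abs.1 q with q | q <;> linarith
  obtain ⟨x, hx, h0⟩ := e3 (fun x => (a x, b x)) (by fun_prop) (fun _ _ => rfl)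
  rcases hab x hx with h | h
  · exact h (congrArg Prod.fst h0)
  · exact h (congrArg Prod.snd h0)

lemma bd_cases {η : ℝ × ℝ} (hη : ‖η‖ = 1) : η.2 = -1 ∨ η.2 = 1 ∨ η.1 = 1 ∨ η.1 = -1 := by
  rcases (norm2_eq.1 hη).2 with q | q <;> rcases (abs_eq (zero_le_one' ℝ)).1 q with q | q <;>
    simp [q]

/-- a periodic function read `N` times along the bottom side of the square -/
noncomputable def EN (D : ℝ → ℂ) (N : ℕ) (η : ℝ × ℝ) : ℂ :=
  (((1 - η.2) / 2 : ℝ) : ℂ) * D (N * ((η.1 + 1) / 2)) + (((1 + η.2) / 2 : ℝ) : ℂ) * D 0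

lemma pow_hm {D : ℝ → ℂ} (hD : Continuous D) (h0 : ∀ x, D x ≠ 0)
    (hp : ∀ (x : ℝ) (k : ℕ), D (x + k) = D x) {m : ℝ × ℝ → ℂ}
    (h1 : Hm {η : ℝ × ℝ | ‖η‖ = 1} (EN D 1) m) (N : ℕ) :
    Hm {η : ℝ × ℝ | ‖η‖ = 1} (EN D (N + 1)) fun η => m η ^ (N + 1) := by
  have hk : ∀ k : ℕ, D k = D 0 := fun k => by simpa using hp 0 k
  have h1' : D 1 = D 0 := by simpa using hk 1
  have half : ∀ z : ℂ, ∀ y : ℝ,
      (((1 - y) / 2 : ℝ) : ℂ) * z + (((1 + y) / 2 : ℝ) : ℂ) * z = z := fun z y => by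
    push_cast; ring
  induction N with
  | zero => exact h1.congr (fun _ _ => rfl) fun _ _ => pow_one _
  | succ N ih =>
    have hu := Hm.unit (f := fun _ : ℝ × ℝ => (D 0)⁻¹) continuous_const
      (fun _ _ => inv_ne_zero (h0 0)) (U := {η : ℝ × ℝ | ‖η‖ = 1}) fun x hx => le_of_eq hx
    refine (Hm.trans ?_ ((ih.mul h1).mul hu)).congr (fun _ _ => rfl) fun η _ => by ring
    generalize N + 1 = n
    have hn : (0 : ℝ) ≤ n := Nat.cast_nonneg n
    refine ⟨fun q => (((1 - q.2.2) / 2 : ℝ) : ℂ) *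
      (D ((1 - q.1) * min ((n + 1) * ((q.2.1 + 1) / 2)) n + q.1 * (n * ((q.2.1 + 1) / 2))) *
        D ((1 - q.1) * max ((n + 1) * ((q.2.1 + 1) / 2) - n) 0 + q.1 * ((q.2.1 + 1) / 2)) *
        (D 0)⁻¹) + (((1 + q.2.2) / 2 : ℝ) : ℂ) * D 0, by fun_prop, fun η _ => ?_,
      fun η hη => ?_, fun τ _ η hη => ?_⟩
    · simp only [EN, sub_zero, one_mul, zero_mul, add_zero, Nat.cast_add, Nat.cast_one]
      congr 2
      rcases le_total ((n + 1 : ℝ) * ((η.1 + 1) / 2)) n with c | c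
      · rw [min_eq_left c, max_eq_right (by linarith), mul_inv_cancel_right₀ (h0 0)]
      · rw [min_eq_right c, max_eq_left (by linarith), hk, mul_comm (D 0),
          mul_inv_cancel_right₀ (h0 0), ← hp _ n, sub_add_cancel]
    · simp only [EN, sub_self, one_mul, zero_mul, zero_add, Nat.cast_one]
      have := h0 0
      rcases bd_cases hη with c | c | c | c
      · rw [c]; norm_num
      · rw [c]; norm_num [this]
      · rw [c, show ((1 : ℝ) + 1) / 2 = 1 by norm_num, mul_one, hk, h1',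
          mul_inv_cancel_right₀ this, half, mul_inv_cancel_right₀ this]
      · rw [c, show ((-1 : ℝ) + 1) / 2 = 0 by norm_num, mul_zero,
          mul_inv_cancel_right₀ this, half, mul_inv_cancel_right₀ this]
    · have := h0 0
      dsimp only
      rcases bd_cases hη with c | c | c | c
      · rw [c]; norm_num [h0]
      · rw [c]; norm_num [h0]
      · rw [c, show ((1 : ℝ) + 1) / 2 = 1 by norm_num, mul_one, mul_one, mul_one,
          min_eq_right (by linarith), max_eq_left (by linarith),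
          show (1 - τ) * (n : ℝ) + τ * n = n by ring,
          show (1 - τ) * ((n : ℝ) + 1 - n) + τ = 1 by ring, hk, h1',
          mul_inv_cancel_right₀ this, half]
        exact this
      · rw [c, show ((-1 : ℝ) + 1) / 2 = 0 by norm_num, mul_zero, mul_zero, mul_zero,
          min_eq_left hn, max_eq_right (by linarith), mul_zero, add_zero,
          mul_inv_cancel_right₀ this, half]
        exact this

/-- secant and height of a chord -/
noncomputable def VV (u : ℝ → ℂ) (s len : ℝ) : ℂ × ℝ := (sec u s len, A u s (s + len))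

lemma chord_of_sec {u : ℝ → ℂ} (h0 : ∀ t, u t ≠ 0) {s len : ℝ} (hl : 0 ≤ len)
    (h : sec u s len = 0) : s < s + len ∧ W u s (s + len) = 0 := by
  refine ⟨?_, by rw [← sec_mul, h, mul_zero]⟩
  rcases hl.eq_or_lt with q | q
  · rw [← q, sec_zero] at h; exact absurd h (h0 _)
  · linarith

theorem abs_false {l : ℝ} (hl : 0 < l) (hl' : l ≤ 1 / 2) (hW : Win l) {S L : ℝ}
    (hS2 : 2000 ≤ S) (hL2 : 1000 ≤ L) (N : ℕ) {V : E4 → ℂ × ℝ} (hV : Continuous V)
    (hwh : ∀ x, (V x).1 = 0 → (V x).2 ≠ 0)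
    (hwb : ∀ ζ η : ℝ × ℝ, ‖ζ‖ = 1 → ‖η‖ ≤ 1 → (V (ζ, η)).1 ≠ 0)
    (hb : ∀ η : ℝ × ℝ, ‖η‖ ≤ 1 → η.2 = -1 → ∀ ζ : ℝ × ℝ, ‖ζ‖ ≤ 1 → V (ζ, η) =
      VV (al l (Int.fract ((N + 1 : ℕ) * ((η.1 + 1) / 2)))) (S * ζ.1) (L * (ζ.2 + 1)))
    (ho : ∀ η : ℝ × ℝ, ‖η‖ ≤ 1 → (η.2 = 1 ∨ |η.1| = 1) → ∀ ζ : ℝ × ℝ, ‖ζ‖ ≤ 1 → V (ζ, η) =
      VV (al l 0) (S * ζ.1) (L * (ζ.2 + 1))) : False := by
  have hpi := Real.pi_gt_three
  have hpi' := Real.pi_lt_four
  have hS0 : 0 < S := by linarith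
  have hL0 : 0 < L := by linarith
  let w : E4 → ℂ := fun x => (V x).1
  let h : E4 → ℝ := fun x => (V x).2
  have hw : Continuous w := hV.fst
  have hh : Continuous h := hV.snd
  obtain ⟨a, b, n, ha, hb', hn, hab⟩ := exists_hopf hw hh hwh
  have nE : ∀ ζ η : ℝ × ℝ, ‖ζ‖ ≤ 1 → ‖η‖ ≤ 1 → ‖((ζ, η) : E4)‖ ≤ 1 := fun ζ η p q =>
    max_le p q
  -- the centres of the windows
  let β0 : ℝ → ℝ × ℝ := fun θ => (-pr θ / S, 2 * π * gg l (2 * θ - 1) / L - 1)
  let ρ0 : ℝ → ℝ × ℝ := fun θ => (pr θ / S, 2 * π * gg l (2 * θ) / L - 1)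
  have hin : ∀ p g : ℝ, |p| ≤ 500 → 0 < g → g ≤ 1 → ‖((p / S, 2 * π * g / L - 1) : ℝ × ℝ)‖ < 1 := by
    intro p g hp g0 g1
    refine norm2_lt.2 ⟨?_, ?_⟩
    · rw [abs_div, abs_of_pos hS0, div_lt_one hS0]; linarith
    · have : 0 < 2 * π * g / L := by positivity
      have : 2 * π * g / L < 1 := by rw [div_lt_one hL0]; nlinarith
      rw [abs_lt]; constructor <;> linarith
  have hβ0 : ∀ θ, ‖β0 θ‖ < 1 := fun θ => hin _ _ (by rw [abs_neg]; exact abs_pr θ)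
    (gg_pos hl (by linarith) _) (gg_le_one (by linarith) _)
  have hρ0 : ∀ θ, ‖ρ0 θ‖ < 1 := fun θ => hin _ _ (abs_pr θ)
    (gg_pos hl (by linarith) _) (gg_le_one (by linarith) _)
  let ext : (ℝ → ℝ × ℝ) → ℝ × ℝ → ℝ × ℝ := fun f η =>
    ((1 - η.2) / 2) • f (Int.fract ((N + 1 : ℕ) * ((η.1 + 1) / 2))) + ((1 + η.2) / 2) • f 0
  have hext : ∀ f : ℝ → ℝ × ℝ, (∀ θ, ‖f θ‖ < 1) → ∀ η, ‖η‖ ≤ 1 → ‖ext f η‖ < 1 := by
    intro f hf η hη
    have q := abs_le.1 (norm2_le.1 hη).2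
    refine (norm_add_le _ _).trans_lt ?_
    rw [norm_smul, norm_smul, Real.norm_of_nonneg (by linarith), Real.norm_of_nonneg (by linarith)]
    have a1 := hf (Int.fract ((N + 1 : ℕ) * ((η.1 + 1) / 2))); have a2 := hf 0
    rcases le_total η.2 0 with c | c <;> nlinarith
  have hβ1 : β0 1 = β0 0 := by
    simp only [β0, pr_one, pr_zero]
    rw [gg_right l (by norm_num), gg_left l (by norm_num)]
  have hρ1 : ρ0 1 = ρ0 0 := by
    simp only [ρ0, pr_one, pr_zero]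
    rw [gg_right l (by norm_num), gg_left l (by norm_num)]
  have hside : ∀ η : ℝ × ℝ, ‖η‖ = 1 → η.2 ≠ -1 → η.2 = 1 ∨ |η.1| = 1 := by
    intro η hη c
    rcases bd_cases hη with q | q | q | q
    · exact absurd q c
    · exact Or.inl q
    · exact Or.inr (by rw [q, abs_one])
    · exact Or.inr (by rw [q, abs_neg, abs_one])
  have hcase : ∀ η : ℝ × ℝ, ‖η‖ = 1 → ∃ θ, (∀ ζ : ℝ × ℝ, ‖ζ‖ ≤ 1 → V (ζ, η) =
      VV (al l θ) (S * ζ.1) (L * (ζ.2 + 1))) ∧ ext β0 η = β0 θ ∧ ext ρ0 η = ρ0 θ ∧ True := by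
    intro η hη
    by_cases c : η.2 = -1
    · exact ⟨_, hb η hη.le c, by simp only [ext, c]; norm_num, by simp only [ext, c]; norm_num,
        trivial⟩
    · have c2 := hside η hη c
      have key : ∀ f : ℝ → ℝ × ℝ, ext f η = f 0 := by
        intro f
        rcases c2 with q | q
        · simp only [ext, q]; norm_num
        · have : Int.fract (((N + 1 : ℕ) : ℝ) * ((η.1 + 1) / 2)) = 0 := by
            rcases (abs_eq (zero_le_one' ℝ)).1 q with q | q
            · rw [q, show ((1 : ℝ) + 1) / 2 = 1 by norm_num, mul_one, Int.fract_natCast]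
            · rw [q]; norm_num
          simp only [ext, this, ← add_smul]
          rw [show (1 - η.2) / 2 + (1 + η.2) / 2 = 1 by ring, one_smul]
      exact ⟨0, ho η hη.le c2, key _, key _, trivial⟩
  have hwin : ∀ (ζ η : ℝ × ℝ) (θ : ℝ), ‖ζ‖ ≤ 1 → (∀ ζ : ℝ × ℝ, ‖ζ‖ ≤ 1 → V (ζ, η) =
      VV (al l θ) (S * ζ.1) (L * (ζ.2 + 1))) → w (ζ, η) = 0 →
      (0 < h (ζ, η) ∧ |ζ.1 - (ρ0 θ).1| < 1 / S ∧ |ζ.2 - (ρ0 θ).2| < 1 / L) ∨
      (h (ζ, η) < 0 ∧ |ζ.1 - (β0 θ).1| < 1 / S ∧ |ζ.2 - (β0 θ).2| < 1 / L) := by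
    intro ζ η θ hζ hη hx
    obtain ⟨z1, z2⟩ := norm2_le.1 hζ
    simp only [w, h, hη ζ hζ, VV] at hx ⊢
    obtain ⟨p, q⟩ := chord_of_sec (fun t => mul_ne_zero (red_ne _ _ t) (blue_ne _ _ t))
      (mul_nonneg hL0.le (by linarith [(abs_le.1 z2).1])) hx
    have k1 : ∀ p : ℝ, |S * ζ.1 - p| < 1 → |ζ.1 - p / S| < 1 / S := by
      intro p hp
      rw [show ζ.1 - p / S = (S * ζ.1 - p) / S by field_simp, abs_div, abs_of_pos hS0]
      exact div_lt_div_of_pos_right hp hS0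
    have k2 : ∀ g : ℝ, |S * ζ.1 + L * (ζ.2 + 1) - S * ζ.1 - g| < 1 →
        |ζ.2 - (g / L - 1)| < 1 / L := by
      intro g hg
      rw [show ζ.2 - (g / L - 1) = (S * ζ.1 + L * (ζ.2 + 1) - S * ζ.1 - g) / L by field_simp; ring,
        abs_div, abs_of_pos hL0]
      exact div_lt_div_of_pos_right hg hL0
    rcases hW θ _ _ p q with ⟨r1, r2, r3⟩ | ⟨r1, r2, r3⟩
    · exact Or.inl ⟨r1, k1 _ r2, k2 _ r3⟩
    · rw [← sub_neg_eq_add] at r2
      exact Or.inr ⟨r1, k1 _ r2, k2 _ r3⟩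
  have hη0 : ‖((-1, -1) : ℝ × ℝ)‖ ≤ 1 := by simp
  have hu0 := ho _ hη0 (Or.inr (by simp))
  have hu0' : al l 0 = u0 := funext fun t => al_zero l t
  have hS' : 1 / S < 500 / S := div_lt_div_of_pos_right (by norm_num) hS0
  have a0 : ∀ ζ : ℝ × ℝ, ‖ζ‖ ≤ 1 → ζ.1 ≤ 0 → a (ζ, (-1, -1)) ≠ 0 := by
    intro ζ hζ hs hx
    obtain ⟨p, q⟩ := (hab _ (nE _ _ hζ hη0)).2.1 hx
    rcases hwin ζ _ 0 hζ hu0 p with r | r
    · linarith [r.1]
    · have := (abs_lt.1 r.2.1).1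
      simp only [β0, pr_zero, neg_neg] at this; linarith
  have b0 : ∀ ζ : ℝ × ℝ, ‖ζ‖ ≤ 1 → 0 ≤ ζ.1 → b (ζ, (-1, -1)) ≠ 0 := by
    intro ζ hζ hs hx
    obtain ⟨p, q⟩ := (hab _ (nE _ _ hζ hη0)).2.2.1 hx
    rcases hwin ζ _ 0 hζ hu0 p with r | r
    · have := (abs_lt.1 r.2.1).2
      simp only [ρ0, pr_zero, neg_div] at this; linarith
    · linarith [r.1]
  have a1 : ∀ ζ η : ℝ × ℝ, ‖ζ‖ = 1 → ‖η‖ ≤ 1 → a (ζ, η) ≠ 0 := fun ζ η p q hx =>
    hwb ζ η p q ((hab _ (nE _ _ p.le q)).2.1 hx).1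
  have b1 : ∀ ζ η : ℝ × ℝ, ‖ζ‖ = 1 → ‖η‖ ≤ 1 → b (ζ, η) ≠ 0 := fun ζ η p q hx =>
    hwb ζ η p q ((hab _ (nE _ _ p.le q)).2.2.1 hx).1
  have hA : Hm {ζ : ℝ × ℝ | ‖ζ‖ = 1} (fun ζ => a (ζ, (-1, -1))) (mdl S L (500 + π)) := by
    let k : ℝ × ℝ → E4 := fun ζ => ((max (c1 ζ.1) 0, c1 ζ.2), (-1, -1))
    have hk : Continuous k := by fun_prop
    have k1 : ∀ ζ, ‖(k ζ).1‖ ≤ 1 := fun ζ => norm2_le.2 ⟨abs_le.2 ⟨le_max_of_le_right (by norm_num),
      max_le (abs_le.1 (abs_c1 _)).2 zero_le_one⟩, abs_c1 _⟩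
    have k2 : ∀ ζ, b (k ζ) ≠ 0 := fun ζ => b0 _ (k1 ζ) (le_max_right _ _)
    have k3 : ∀ ζ, ((n (k ζ) - h (k ζ) : ℝ) : ℂ) ≠ 0 := fun ζ =>
      Complex.ofReal_ne_zero.2 ((hab _ (nE _ _ (k1 ζ) hη0)).2.2.2.1 (k2 ζ)).ne'
    have k4 : ∀ ζ : ℝ × ℝ, ‖ζ‖ = 1 → w (k ζ) = sec u0 (S * max ζ.1 0) (L * (ζ.2 + 1)) := by
      intro ζ hζ
      obtain ⟨z1, z2⟩ := norm2_le.1 hζ.le
      rw [show w (k ζ) = _ from congrArg Prod.fst (hu0 _ (k1 ζ))]
      simp only [VV, hu0', c1_id z1, c1_id z2]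
    refine hm_half (w := fun ζ => w (k ζ)) (g := fun ζ => b (k ζ) / ((n (k ζ) - h (k ζ) : ℝ) : ℂ))
      (κ := fun q => (max q.2.1 (q.1 - 1), q.2.2)) (by fun_prop)
      ((hb'.comp hk).div (by fun_prop) k3) (by fun_prop) (fun ζ hζ => ?_) (fun τ hτ ζ hζ => ?_)
      (fun ζ _ => div_ne_zero (k2 ζ) (k3 ζ)) (fun ζ hζ => ?_) ?_
    · have := abs_le.1 (norm2_le.1 hζ.le).1
      simp only [zero_sub, max_eq_left this.1]
    · rcases le_total (τ - 1) ζ.1 with c | c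
      · simp only [max_eq_left c]; exact a1 _ _ hζ hη0
      · simp only [max_eq_right c]
        refine a0 _ (norm2_le.2 ⟨?_, (norm2_le.1 hζ.le).2⟩) (by linarith [hτ.2])
        rw [abs_le]; constructor <;> linarith [hτ.1, hτ.2]
    · obtain ⟨z1, z2⟩ := norm2_le.1 hζ.le
      have := (hab _ (nE _ _ (k1 ζ) hη0)).2.2.2.2.2.1
      rw [← mul_div_assoc, eq_div_iff (k3 ζ), ← this, mul_comm]
      simp only [k, c1_id z1, c1_id z2, sub_self]
    · refine seg_model (f := fun ζ => w (k ζ)) (hw.comp hk) (by rw [abs_lt]; constructor <;> linarith) (by linarith)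
        (fun ζ hζ c => ?_) (fun ζ hζ c => ?_)
      · have e : w (k ζ) = blue 500 1 (S * max ζ.1 0) := by
          rw [k4 ζ hζ, c, neg_add_cancel, mul_zero, sec_zero, u0, red_right one_pos, one_mul]
          have : 0 ≤ S * max ζ.1 0 := mul_nonneg hS0.le (le_max_right _ _)
          linarith
        rw [e]
        refine ⟨blue_ne _ _ _, fun q => blue_im_nonneg ?_, fun q => blue_im_nonpos ?_, fun q => ?_⟩
        · rcases le_total ζ.1 0 with r | r
          · rw [max_eq_right r]; linarith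
          · rwa [max_eq_left r]
        · exact q.trans (mul_le_mul_of_nonneg_left (le_max_left _ _) hS0.le)
        · rw [max_eq_left (by nlinarith), q, blue_mid]; norm_num
      · rw [k4 ζ hζ]
        have z2 := abs_le.1 (norm2_le.1 hζ.le).2
        rcases c with c | c
        · refine u0_side (by nlinarith) ?_
          rcases (abs_eq (zero_le_one' ℝ)).1 c with c | c
          · right; rw [c, max_eq_left zero_le_one, mul_one, abs_of_pos hS0]; linarith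
          · left; rw [c, max_eq_right (by norm_num), mul_zero]
        · rw [c]
          exact ⟨sec_pos' L1_u0.dev (by linarith) (by linarith), fun q => by linarith⟩
  have hB : Hm {ζ : ℝ × ℝ | ‖ζ‖ = 1} (fun ζ => b (ζ, (-1, -1))) (mdl S L (-500 + π)) := by
    let k : ℝ × ℝ → E4 := fun ζ => ((min (c1 ζ.1) 0, c1 ζ.2), (-1, -1))
    have hk : Continuous k := by fun_prop
    have k1 : ∀ ζ, ‖(k ζ).1‖ ≤ 1 := fun ζ => norm2_le.2 ⟨abs_le.2
      ⟨le_min (abs_le.1 (abs_c1 _)).1 (by norm_num), min_le_of_right_le zero_le_one⟩, abs_c1 _⟩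
    have k2 : ∀ ζ, a (k ζ) ≠ 0 := fun ζ => a0 _ (k1 ζ) (min_le_right _ _)
    have k3 : ∀ ζ, ((n (k ζ) + h (k ζ) : ℝ) : ℂ) ≠ 0 := fun ζ =>
      Complex.ofReal_ne_zero.2 ((hab _ (nE _ _ (k1 ζ) hη0)).2.2.2.2.1 (k2 ζ)).ne'
    have k4 : ∀ ζ : ℝ × ℝ, ‖ζ‖ = 1 → w (k ζ) = sec u0 (S * min ζ.1 0) (L * (ζ.2 + 1)) := by
      intro ζ hζ
      obtain ⟨z1, z2⟩ := norm2_le.1 hζ.le
      rw [show w (k ζ) = _ from congrArg Prod.fst (hu0 _ (k1 ζ))]
      simp only [VV, hu0', c1_id z1, c1_id z2]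
    refine hm_half (w := fun ζ => (starRingEnd ℂ) (w (k ζ)))
      (g := fun ζ => a (k ζ) / ((n (k ζ) + h (k ζ) : ℝ) : ℂ))
      (κ := fun q => (min q.2.1 (1 - q.1), q.2.2)) (by fun_prop)
      ((ha.comp hk).div (by fun_prop) k3) (by fun_prop) (fun ζ hζ => ?_) (fun τ hτ ζ hζ => ?_)
      (fun ζ _ => div_ne_zero (k2 ζ) (k3 ζ)) (fun ζ hζ => ?_) ?_
    · have := abs_le.1 (norm2_le.1 hζ.le).1
      simp only [sub_zero, min_eq_left this.2]
    · rcases le_total ζ.1 (1 - τ) with c | c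
      · simp only [min_eq_left c]; exact b1 _ _ hζ hη0
      · simp only [min_eq_right c]
        refine b0 _ (norm2_le.2 ⟨?_, (norm2_le.1 hζ.le).2⟩) (by linarith [hτ.2])
        rw [abs_le]; constructor <;> linarith [hτ.1, hτ.2]
    · obtain ⟨z1, z2⟩ := norm2_le.1 hζ.le
      have := (hab _ (nE _ _ (k1 ζ) hη0)).2.2.2.2.2.2
      rw [← mul_div_assoc, eq_div_iff (k3 ζ), ← this, mul_comm]
      simp only [k, c1_id z1, c1_id z2, sub_self]
    · refine seg_model (f := fun ζ => (starRingEnd ℂ) (w (k ζ)))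
        (Complex.continuous_conj.comp (hw.comp hk))
        (by rw [abs_lt]; constructor <;> linarith) (by linarith)
        (fun ζ hζ c => ?_) (fun ζ hζ c => ?_)
      · have e : (starRingEnd ℂ) (w (k ζ)) = blue (-500) 1 (S * min ζ.1 0) := by
          rw [k4 ζ hζ, c, neg_add_cancel, mul_zero, sec_zero, u0, blue_left one_pos, mul_one,
            conj_red]
          have : S * min ζ.1 0 ≤ 0 := mul_nonpos_of_nonneg_of_nonpos hS0.le (min_le_right _ _)
          linarith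
        rw [e]
        refine ⟨blue_ne _ _ _, fun q => blue_im_nonneg ?_, fun q => blue_im_nonpos ?_, fun q => ?_⟩
        · exact (mul_le_mul_of_nonneg_left (min_le_left _ _) hS0.le).trans q
        · rcases le_total ζ.1 0 with r | r
          · rwa [min_eq_left r]
          · rw [min_eq_right r]; linarith
        · rw [min_eq_left (by nlinarith), q, blue_mid]; norm_num
      · rw [k4 ζ hζ, conj_re, conj_im, neg_eq_zero]
        have z2 := abs_le.1 (norm2_le.1 hζ.le).2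
        rcases c with c | c
        · refine u0_side (by nlinarith) ?_
          rcases (abs_eq (zero_le_one' ℝ)).1 c with c | c
          · left; rw [c, min_eq_right zero_le_one, mul_zero]
          · right; rw [c, min_eq_left (by norm_num), mul_neg_one, abs_neg, abs_of_pos hS0]; linarith
        · rw [c]
          exact ⟨sec_pos' L1_u0.dev (by linarith) (by linarith), fun q => by linarith⟩
  have cf : ∀ f : ℝ → ℝ × ℝ, Continuous f → f 1 = f 0 → Continuous fun x => f (Int.fract x) :=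
    fun f hf e => hf.continuousOn.comp_fract'' e.symm
  have cβ0 : Continuous β0 := by simp only [β0]; fun_prop
  have cρ0 : Continuous ρ0 := by simp only [ρ0]; fun_prop
  have cβ1 := cf _ cβ0 hβ1
  have cρ1 := cf _ cρ0 hρ1
  have ce : ∀ f : ℝ → ℝ × ℝ, (Continuous fun x => f (Int.fract x)) → Continuous (ext f) :=
    fun f hf => by
      have := hf.comp (f := fun η : ℝ × ℝ => ((N + 1 : ℕ) : ℝ) * ((η.1 + 1) / 2)) (by fun_prop)
      exact Continuous.add (Continuous.smul (f := fun η : ℝ × ℝ => (1 - η.2) / 2) (by fun_prop) this)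
        (by fun_prop)
  have cβ := ce _ cβ1
  have cρ := ce _ cρ1
  have dS : 0 < 1 / S := by positivity
  have dL : 0 < 1 / L := by positivity
  have hsep0 : ∀ θ, 2 * (1 / S) ≤ |(β0 θ).1 - (ρ0 θ).1| ∨ 2 * (1 / L) ≤ |(β0 θ).2 - (ρ0 θ).2| := by
    intro θ
    rcases sep_al hl' θ with q | q
    · left
      rw [show (β0 θ).1 - (ρ0 θ).1 = -2 * pr θ / S by simp only [β0, ρ0]; ring, abs_div,
        abs_of_pos hS0, abs_mul, q, mul_one_div]
      exact div_le_div_of_nonneg_right (by norm_num) hS0.le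
    · right
      rw [show (β0 θ).2 - (ρ0 θ).2 = (2 * π * gg l (2 * θ - 1) - 2 * π * gg l (2 * θ)) / L by
        simp only [β0, ρ0]; ring, abs_div, abs_of_pos hL0, mul_one_div]
      exact div_le_div_of_nonneg_right q hL0.le
  refine link' (m := fun η => (-I * lin η) ^ (N + 1)) (by fun_prop)
    (Deg.ess_pow (Nat.succ_pos N)) ha hb' (fun x hx => (hab x hx).1) cβ cρ (hext _ hβ0) (δ₁ := 1 / S) (δ₂ := 1 / L)
    (fun η hη => ?_) dS dL
    (hm_push ha cβ (hext _ hβ0) dS dL a1 (fun ζ η p q hx => ?_) hη0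
      (mdl_PM (by rw [abs_lt]; constructor <;> linarith) (by linarith)) hA)
    (hm_push hb' cρ (hext _ hρ0) dS dL b1 (fun ζ η p q hx => ?_) hη0
      (mdl_PM (by rw [abs_lt]; constructor <;> linarith) (by linarith)) hB) ?_
  · obtain ⟨θ, -, e1, e2, -⟩ := hcase η hη
    rw [e1, e2]; exact hsep0 θ
  · obtain ⟨θ, e0, e1, -, -⟩ := hcase η q
    obtain ⟨r1, r2⟩ := (hab _ (nE _ _ p q.le)).2.1 hx
    rw [e1]
    rcases hwin ζ η θ p e0 r1 with r | r
    · linarith [r.1]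
    · exact r.2
  · obtain ⟨θ, e0, -, e1, -⟩ := hcase η q
    obtain ⟨r1, r2⟩ := (hab _ (nE _ _ p q.le)).2.2.1 hx
    rw [e1]
    rcases hwin ζ η θ p e0 r1 with r | r
    · exact r.2
    · linarith [r.1]
  · let D : ℝ → ℂ := fun x => lin (β0 (Int.fract x) - ρ0 (Int.fract x))
    have eD : ∀ (k : ℕ) (η : ℝ × ℝ), lin ((((1 - η.2) / 2) • β0 (Int.fract (k * ((η.1 + 1) / 2))) +
        ((1 + η.2) / 2) • β0 0) - (((1 - η.2) / 2) • ρ0 (Int.fract (k * ((η.1 + 1) / 2))) +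
        ((1 + η.2) / 2) • ρ0 0)) = EN D k η := by
      intro k η
      simp only [EN, D, Int.fract_zero, lin, Prod.fst_sub, Prod.snd_sub, Prod.fst_add, Prod.snd_add,
        Prod.smul_fst, Prod.smul_snd, smul_eq_mul]
      push_cast; ring
    have cD : Continuous D := continuous_lin.comp (cβ1.sub cρ1)
    refine (pow_hm cD (fun x hx => ?_) (fun x k => by simp only [D, Int.fract_add_natCast])
      ?_ N).congr (fun η _ => eD _ η) fun _ _ => rfl
    · have e := lin_eq_zero hx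
      rcases hsep0 (Int.fract x) with q | q
      · rw [← Prod.fst_sub, e, Prod.fst_zero, abs_zero] at q; linarith
      · rw [← Prod.snd_sub, e, Prod.snd_zero, abs_zero] at q; linarith
    have hcase : ∀ η : ℝ × ℝ, ‖η‖ = 1 → ∃ θ, EN D 1 η = lin (β0 θ - ρ0 θ) ∧
        ((η.2 = -1 ∧ θ = (η.1 + 1) / 2) ∨ (θ = 0 ∧ (η.2 = 1 ∨ |η.1| = 1))) := by
      intro η hη
      have z := abs_le.1 (norm2_le.1 hη.le).1
      by_cases c : η.2 = -1
      · refine ⟨_, ?_, Or.inl ⟨c, rfl⟩⟩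
        rw [EN, c]
        norm_num [D]
        rcases z.2.eq_or_lt with q | q
        · rw [q]; norm_num [hβ1, hρ1]
        · rw [Int.fract_eq_self.2 ⟨by linarith, by linarith⟩]
      · refine ⟨0, ?_, Or.inr ⟨rfl, hside η hη c⟩⟩
        rcases hside η hη c with q | q
        · rw [EN, q]; norm_num [D]
        · have : D (((1 : ℕ) : ℝ) * ((η.1 + 1) / 2)) = D 0 := by
            rcases (abs_eq (zero_le_one' ℝ)).1 q with q | q <;> rw [q] <;> norm_num [D]
          rw [EN, this, ← add_mul]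
          simp only [D, Int.fract_zero]
          push_cast; ring
    refine Hm.segment (by unfold EN; fun_prop) (by fun_prop) fun η hη μ hμ hx => ?_
    obtain ⟨θ, e1, c⟩ := hcase η hη
    have hre := congrArg Complex.re hx
    have him := congrArg Complex.im hx
    rw [e1] at hre him
    simp only [add_re, re_ofReal_mul, zero_re, add_im, im_ofReal_mul, zero_im, lin_re, lin_im,
      neg_mul, neg_re, neg_im, I_mul_re, I_mul_im, Prod.fst_sub, Prod.snd_sub, neg_neg] at hre him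
    have hμ1 : 0 ≤ 1 - μ := by linarith [hμ.2]
    have d1 : (β0 θ).1 - (ρ0 θ).1 = -2 * pr θ / S := by simp only [β0, ρ0]; ring
    have d2 : (β0 θ).2 - (ρ0 θ).2 = 2 * π * (gg l (2 * θ - 1) - gg l (2 * θ)) / L := by
      simp only [β0, ρ0]; ring
    have hμ0 : μ ≠ 0 := by
      rintro rfl
      simp only [sub_zero, one_mul, zero_mul, add_zero, neg_eq_zero] at hre him
      rcases hsep0 θ with q | q
      · rw [him, abs_zero] at q; linarith
      · rw [hre, abs_zero] at q; linarith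
    have hμp : 0 < μ := lt_of_le_of_ne hμ.1 hμ0.symm
    rcases c with ⟨c1, c2⟩ | ⟨c1, c2⟩
    · rcases lt_trichotomy η.1 0 with q | q | q
      · have : 0 ≤ (β0 θ).2 - (ρ0 θ).2 := by
          rw [d2, gg_left l (by linarith)]
          have := gg_le_one (l := l) (by linarith) (2 * θ)
          exact div_nonneg (mul_nonneg (by positivity) (by linarith)) hL0.le
        nlinarith [mul_nonneg hμ1 this, mul_pos hμp (neg_pos.2 q)]
      · have : (β0 θ).1 - (ρ0 θ).1 ≤ 0 := by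
          rw [d1, c2, q, zero_add, pr_half]
          exact div_nonpos_of_nonpos_of_nonneg (by norm_num) hS0.le
        rw [c1] at him
        nlinarith [mul_nonneg hμ1 (neg_nonneg.2 this)]
      · have : (β0 θ).2 - (ρ0 θ).2 ≤ 0 := by
          rw [d2, gg_right l (x := 2 * θ) (by linarith)]
          have := gg_le_one (l := l) (by linarith) (2 * θ - 1)
          exact div_nonpos_of_nonpos_of_nonneg
            (mul_nonpos_of_nonneg_of_nonpos (by positivity) (by linarith)) hL0.le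
        nlinarith [mul_nonneg hμ1 (neg_nonneg.2 this), mul_pos hμp q]
    · have p1 : 0 ≤ (β0 θ).1 - (ρ0 θ).1 := by
        rw [d1, c1, pr_zero]; exact div_nonneg (by norm_num) hS0.le
      have p2 : (β0 θ).2 - (ρ0 θ).2 = 0 := by
        rw [d2, c1, gg_left l (by norm_num), gg_left l (by norm_num)]; simp
      rcases c2 with c2 | c2
      · rw [c2] at him; nlinarith [mul_nonneg hμ1 p1]
      · rw [p2, mul_zero, zero_add, mul_eq_zero, neg_eq_zero] at hre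
        rw [hre.resolve_left hμ0] at c2; simp at c2

end Pool.Agent.MP_b8ade4_gt
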