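import Pool.Agent.MP_b8ade4_gt.Defs

/-! The diagram of the long unknot with one stabilisation of each sign. -/

namespace Pool.Agent.MP_b8ade4_gt

/-- The projection of `γ` to the xy-plane has exactly two double points, at the parameters
`s₁ < t₁ < s₂ < t₂` (two kinks, one after the other); both are transverse; the height `z` goes up
around the first kink and down around the second. -/
def TwoKinks (γ : ℝ → ℝ × ℝ × ℝ) : Prop :=
  ∃ s₁ t₁ s₂ t₂ : ℝ, s₁ < t₁ ∧ t₁ < s₂ ∧ s₂ < t₂ ∧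
    (∀ s t, s < t → (((γ s).1 = (γ t).1 ∧ (γ s).2.1 = (γ t).2.1) ↔
      ((s = s₁ ∧ t = t₁) ∨ (s = s₂ ∧ t = t₂)))) ∧
    (deriv γ s₁).1 * (deriv γ t₁).2.1 ≠ (deriv γ s₁).2.1 * (deriv γ t₁).1 ∧
    (deriv γ s₂).1 * (deriv γ t₂).2.1 ≠ (deriv γ s₂).2.1 * (deriv γ t₂).1 ∧
    (γ s₁).2.2 < (γ t₁).2.2 ∧ (γ t₂).2.2 < (γ s₂).2.2

end Pool.Agent.MP_b8ade4_gt
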