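import Pool.Agent.MP_b8ade4_gt.h67.Jac
import Pool.Agent.MP_b8ade4_gt.Nontriv
import Mathlib.Analysis.Calculus.BumpFunction.SmoothApprox
import Mathlib.Analysis.Calculus.Deriv.Pow
import Mathlib.Analysis.Calculus.FDeriv.Pi

/-! Maps of positive degree on the boundary of the four-dimensional cube are essential. -/

namespace Pool.Agent.MP_b8ade4_gt.Deg

open Set Metric Filter MeasureTheory Complex
open scoped Topology

abbrev V4 := Fin 4 → ℝ

theorem det4 (A : V4 →L[ℝ] V4) :
    A.det = (Matrix.of fun i j : Fin 4 => A (Pi.single j 1) i).det := by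
  rw [ContinuousLinearMap.det, ← LinearMap.det_toMatrix']
  congr 1

/-- a map whose Jacobian is a bump function -/
theorem exists_psi {ε : ℝ} (hε : 0 < ε) : ∃ Ψ : V4 → V4, ContDiff ℝ 1 Ψ ∧
    (∀ y, 0 ≤ (fderiv ℝ Ψ y).det) ∧ (∀ y, ε ≤ ‖y‖ → (fderiv ℝ Ψ y).det = 0) ∧
    ∀ y, ‖y‖ < ε → 0 < (fderiv ℝ Ψ y).det := by
  let c : ContDiffBump (0 : ℝ) := ⟨ε / 2, ε, by linarith, by linarith⟩
  have hc : ContDiff ℝ 1 c := c.contDiff
  let β : ℝ → ℝ := fun t => ∫ s in (0 : ℝ)..t, c s
  have dβ : ∀ t, HasDerivAt β (c t) t := fun t =>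
    (hc.continuous.integral_hasStrictDerivAt 0 t).hasDerivAt
  have hβ : ContDiff ℝ 1 β := by
    refine contDiff_one_iff_deriv.2 ⟨fun t => (dβ t).differentiableAt, ?_⟩
    rw [show deriv β = c from funext fun t => (dβ t).deriv]
    exact hc.continuous
  let g : V4 → ℝ := fun y => β (y 0) * (c (y 1) * c (y 2) * c (y 3))
  have hg : ContDiff ℝ 1 g :=
    (hβ.comp (contDiff_apply ℝ ℝ 0)).mul (((hc.comp (contDiff_apply ℝ ℝ 1)).mul
      (hc.comp (contDiff_apply ℝ ℝ 2))).mul (hc.comp (contDiff_apply ℝ ℝ 3)))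
  have dg : ∀ y, fderiv ℝ g y (Pi.single 0 1) = c (y 0) * (c (y 1) * c (y 2) * c (y 3)) := by
    intro y
    have h0 : HasDerivAt (fun t : ℝ => y + t • (Pi.single 0 1 : V4)) (Pi.single 0 1) 0 := by
      simpa using ((hasDerivAt_id (0 : ℝ)).smul_const (Pi.single 0 1 : V4)).const_add y
    have h1 := HasFDerivAt.comp_hasDerivAt_of_eq (0 : ℝ)
      ((hg.differentiable one_ne_zero) y).hasFDerivAt h0 (by simp)
    have h2 : HasDerivAt (fun t : ℝ => β (y 0 + t) * (c (y 1) * c (y 2) * c (y 3)))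
        (c (y 0) * (c (y 1) * c (y 2) * c (y 3))) 0 :=
      (HasDerivAt.comp_const_add (y 0) 0 (by simpa using dβ (y 0))).mul_const _
    refine h1.unique (h2.congr_of_eventuallyEq (Eventually.of_forall fun t => ?_))
    simp [g]
  let Ψ : V4 → V4 := fun y => ![g y, y 1, y 2, y 3]
  have hΨ : ContDiff ℝ 1 Ψ := by
    refine contDiff_pi.2 fun i => ?_
    fin_cases i
    · exact hg
    · exact contDiff_apply ℝ ℝ 1
    · exact contDiff_apply ℝ ℝ 2
    · exact contDiff_apply ℝ ℝ 3
  have dΨ : ∀ y, (fderiv ℝ Ψ y).det = c (y 0) * (c (y 1) * c (y 2) * c (y 3)) := by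
    intro y
    have h1 : HasFDerivAt Ψ (ContinuousLinearMap.pi ![fderiv ℝ g y, ContinuousLinearMap.proj 1,
        ContinuousLinearMap.proj 2, ContinuousLinearMap.proj 3]) y := by
      refine hasFDerivAt_pi.2 fun i => ?_
      fin_cases i
      · exact ((hg.differentiable one_ne_zero) y).hasFDerivAt
      · exact hasFDerivAt_apply 1 y
      · exact hasFDerivAt_apply 2 y
      · exact hasFDerivAt_apply 3 y
    rw [h1.fderiv, det4, Matrix.det_succ_column_zero, ← dg]
    simp [Fin.sum_univ_succ, Matrix.det_fin_three, Fin.succAbove]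
  refine ⟨Ψ, hΨ, fun y => ?_, fun y hy => ?_, fun y hy => ?_⟩
  · rw [dΨ]
    have := c.nonneg' (y 0); have := c.nonneg' (y 1); have := c.nonneg' (y 2)
    have := c.nonneg' (y 3)
    positivity
  · rw [dΨ]
    obtain ⟨i, hi⟩ : ∃ i, ε ≤ ‖y i‖ := by
      by_contra h
      push Not at h
      exact absurd ((pi_norm_lt_iff hε).2 h) (not_lt.2 hy)
    have h0 : c (y i) = 0 := c.zero_of_le_dist (by simpa using hi)
    fin_cases i <;> simp only [Fin.reduceFinMk, Fin.zero_eta, Fin.mk_one] at h0 <;> simp [h0]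
  · rw [dΨ]
    have h : ∀ i, 0 < c (y i) := fun i =>
      c.pos_of_mem_ball (by simpa using (norm_le_pi_norm y i).trans_lt hy)
    have := h 0; have := h 1; have := h 2; have := h 3
    positivity

/-- a smooth map with nonnegative Jacobian and a single zero is essential on the sphere -/
theorem ess_of_det {F G : V4 → V4} (hF : ContDiff ℝ 1 F) (h0 : F 0 = 0) (hne : ∀ z, F z = 0 → z = 0)
    (hd : ∀ z, 0 ≤ (fderiv ℝ F z).det) (hp : ∃ᶠ z in 𝓝 (0 : V4), 0 < (fderiv ℝ F z).det)
    (hG : Continuous G) (hb : ∀ z, ‖z‖ = 1 → G z = F z) : ∃ z, ‖z‖ ≤ 1 ∧ G z = 0 := by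
  by_contra hc
  push Not at hc
  let D : V4 → V4 := fun z => if ‖z‖ ≤ 1 then G z - F z else 0
  have hD : Continuous D :=
    Continuous.if_le (hG.sub hF.continuous) continuous_const continuous_norm continuous_const
      fun z hz => by rw [hb z hz, sub_self]
  have hD0 : ∀ z, 1 < ‖z‖ → D z = 0 := fun z hz => if_neg (not_le.2 hz)
  have hcs : HasCompactSupport D := HasCompactSupport.intro (isCompact_closedBall 0 1)
    fun z hz => hD0 z (by simpa using hz)
  obtain ⟨z₀, -, hz₀⟩ := (isCompact_closedBall (0 : V4) 4).exists_isMinOn ⟨0, by simp⟩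
    (hF.continuous.add hD).norm.continuousOn
  have hm : 0 < ‖F z₀ + D z₀‖ := by
    refine norm_pos_iff.2 fun h => ?_
    by_cases h1 : ‖z₀‖ ≤ 1
    · simp only [D, if_pos h1, add_sub_cancel] at h
      exact hc _ h1 h
    · rw [hD0 _ (not_le.1 h1), add_zero] at h
      rw [hne _ h] at h1
      simp at h1
  set m := ‖F z₀ + D z₀‖
  obtain ⟨D', sD, hD'⟩ := (hcs.uniformContinuous_of_continuous hD).exists_contDiff_dist_le
    (half_pos hm)
  let b : ContDiffBump (0 : V4) := ⟨1, 2, one_pos, one_lt_two⟩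
  let H : V4 → V4 := fun z => F z + b z • D' z
  have hH : ContDiff ℝ 1 H := hF.add (b.contDiff.smul (sD.of_le (by exact_mod_cast le_top)))
  have hbig : ∀ z ∈ ball (0 : V4) 3, m / 2 ≤ ‖H z‖ := by
    intro z hz
    have h1 : m ≤ ‖F z + D z‖ := hz₀ (ball_subset_closedBall (ball_subset_ball (by norm_num) hz))
    have h2 : ‖D z - b z • D' z‖ ≤ m / 2 := by
      have h3 := hD' z
      rw [dist_comm, dist_eq_norm] at h3
      by_cases h4 : ‖z‖ ≤ 1
      · rw [b.one_of_mem_closedBall (by simpa using h4), one_smul]; exact h3.le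
      · rw [hD0 _ (not_le.1 h4), zero_sub, norm_neg] at h3 ⊢
        rw [norm_smul, Real.norm_of_nonneg b.nonneg]
        exact (mul_le_of_le_one_left (norm_nonneg _) b.le_one).trans h3.le
    have h5 := norm_add_le (H z) (D z - b z • D' z)
    rw [show H z + (D z - b z • D' z) = F z + D z by simp only [H]; abel] at h5
    linarith
  obtain ⟨Ψ, hΨ, p0, p1, p2⟩ := exists_psi (half_pos hm)
  have key := Jac.jac_eq (h₀ := Ψ ∘ F) (h₁ := Ψ ∘ H) (W := univ) (y₀ := 0) (r := 4) (r' := 2)
    (ρ := 3) isOpen_univ (subset_univ _) (by norm_num) (by norm_num) (by norm_num)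
    (hΨ.comp hF).contDiffOn (hΨ.comp hH).contDiffOn fun y _ hy => by
      simp only [Function.comp, H, b.zero_of_le_dist hy.le, zero_smul, add_zero]
  have ch : ∀ {K : V4 → V4}, ContDiff ℝ 1 K → ∀ z, (fderiv ℝ (Ψ ∘ K) z).det =
      (fderiv ℝ Ψ (K z)).det * (fderiv ℝ K z).det := fun hK z => by
    rw [fderiv_comp z (hΨ.differentiable one_ne_zero _) (hK.differentiable one_ne_zero _)]
    exact LinearMap.det_comp _ _
  rw [setIntegral_eq_zero_of_forall_eq_zero (f := fun z => (fderiv ℝ (Ψ ∘ H) z).det)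
    fun z hz => by rw [ch hH, p1 _ (hbig z hz), zero_mul]] at key
  have cJ : Continuous fun z => (fderiv ℝ (Ψ ∘ F) z).det :=
    ContinuousLinearMap.continuous_det.comp ((hΨ.comp hF).continuous_fderiv one_ne_zero)
  have nn : ∀ z, 0 ≤ (fderiv ℝ (Ψ ∘ F) z).det := fun z => by
    rw [ch hF]; exact mul_nonneg (p0 _) (hd _)
  have e1 : ∀ᶠ z in 𝓝 (0 : V4), ‖F z‖ < m / 2 :=
    hF.continuous.norm.continuousAt.eventually_lt continuousAt_const (by simpa [h0] using hm)
  obtain ⟨z, q1, q2, q3⟩ := (hp.and_eventually (e1.and (ball_mem_nhds (0 : V4) three_pos))).exists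
  refine absurd key (ne_of_gt ?_)
  rw [setIntegral_pos_iff_support_of_nonneg_ae (ae_of_all _ nn) (Jac.intOn cJ _ _)]
  refine IsOpen.measure_pos _ (cJ.isOpen_support.inter isOpen_ball) ⟨z, ?_, q3⟩
  rw [Function.mem_support, ch hF]
  exact (mul_pos (p2 _ q2) q1).ne'

theorem ess_pow {n : ℕ} (hn : 0 < n) : Ess fun x => (lin x.1, (-I * lin x.2) ^ n) := by
  intro G hG hb
  let o : V4 → E4 := fun z => ((z 0, z 1), (z 2, z 3))
  let r : ℂ × ℂ → V4 := fun w => ![-w.1.im, w.1.re, -w.2.re, -w.2.im]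
  have ho : Continuous o := by fun_prop
  have hr : Continuous r := by
    refine continuous_pi fun i => ?_
    fin_cases i <;> simp [r] <;> fun_prop
  have hr0 : ∀ w, r w = 0 → w = 0 := by
    intro w h
    have a0 := congrFun h 0; have a1 := congrFun h 1; have a2 := congrFun h 2
    have a3 := congrFun h 3
    simp [r] at a0 a1 a2 a3
    ext <;> simp [Complex.ext_iff, *]
  have hno : ∀ z, ‖o z‖ = ‖z‖ := by
    intro z
    apply le_antisymm
    · simp only [o, Prod.norm_def, max_le_iff]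
      exact ⟨⟨norm_le_pi_norm z 0, norm_le_pi_norm z 1⟩, norm_le_pi_norm z 2, norm_le_pi_norm z 3⟩
    · refine (pi_norm_le_iff_of_nonneg (norm_nonneg _)).2 fun i => ?_
      fin_cases i <;> simp [o, Prod.norm_def]
  let P : V4 →L[ℝ] ℂ := -(ofRealCLM.comp (ContinuousLinearMap.proj 2)) -
    I • ofRealCLM.comp (ContinuousLinearMap.proj 3)
  have hP : ∀ z, P z = -I * lin (z 2, z 3) := by
    intro z
    simp only [P, lin, sub_apply, neg_apply, smul_apply, ContinuousLinearMap.comp_apply,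
      ContinuousLinearMap.proj_apply, ofRealCLM_apply, smul_eq_mul]
    linear_combination (-(z 2 : ℂ)) * I_mul_I
  let F : V4 → V4 := fun z => ![z 0, z 1, -(P z ^ n).re, -(P z ^ n).im]
  have eF : ∀ z, F z = r (lin (z 0, z 1), (-I * lin (z 2, z 3)) ^ n) := by
    intro z
    ext i
    fin_cases i <;> simp [F, r, hP]
  have cP : ContDiff ℝ 1 fun z => P z ^ n := P.contDiff.pow n
  have hF : ContDiff ℝ 1 F := by
    refine contDiff_pi.2 fun i => ?_
    fin_cases i
    · exact contDiff_apply ℝ ℝ 0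
    · exact contDiff_apply ℝ ℝ 1
    · exact (reCLM.contDiff.comp cP).neg
    · exact (imCLM.contDiff.comp cP).neg
  have dF : ∀ z, (fderiv ℝ F z).det = normSq (n * P z ^ (n - 1)) := by
    intro z
    have h0 : HasFDerivAt (fun z => P z ^ n) (((n : ℂ) * P z ^ (n - 1)) • P) z :=
      (hasDerivAt_pow n (P z)).comp_hasFDerivAt z P.hasFDerivAt
    generalize (n : ℂ) * P z ^ (n - 1) = μ at h0
    have h1 : HasFDerivAt F (ContinuousLinearMap.pi ![ContinuousLinearMap.proj 0,
        ContinuousLinearMap.proj 1, -reCLM.comp (μ • P), -imCLM.comp (μ • P)]) z := by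
      refine hasFDerivAt_pi.2 fun i => ?_
      fin_cases i
      · exact hasFDerivAt_apply 0 z
      · exact hasFDerivAt_apply 1 z
      · exact (reCLM.hasFDerivAt.comp z h0).neg
      · exact (imCLM.hasFDerivAt.comp z h0).neg
    rw [h1.fderiv, det4, Matrix.det_succ_row_zero]
    simp [Matrix.det_fin_three, Fin.succAbove, Pi.single_apply, P, normSq_apply]
  obtain ⟨z, hz, h⟩ := ess_of_det (G := fun z => r (G (o z))) hF
    (by ext i; fin_cases i <;> simp [F, hn.ne'])
    (fun z h => by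
      have h1 := hr0 _ ((eF z).symm.trans h)
      have h2 := lin_eq_zero (congrArg Prod.fst h1)
      have h3 := lin_eq_zero ((mul_eq_zero.1 (pow_eq_zero_iff hn.ne' |>.1
        (congrArg Prod.snd h1))).resolve_left (by simp))
      ext i
      fin_cases i
      exacts [congrArg Prod.fst h2, congrArg Prod.snd h2, congrArg Prod.fst h3,
        congrArg Prod.snd h3])
    (fun z => by rw [dF]; exact normSq_nonneg _)
    (by
      have t : Tendsto (fun s : ℝ => (Pi.single 2 s : V4)) (𝓝[≠] 0) (𝓝 0) := by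
        refine Tendsto.mono_left ?_ nhdsWithin_le_nhds
        have : Continuous fun s : ℝ => (Pi.single 2 s : V4) :=
          continuous_single (A := fun _ : Fin 4 => ℝ) 2
        simpa using this.tendsto 0
      refine t.frequently (Eventually.frequently ?_)
      filter_upwards [self_mem_nhdsWithin] with s hs
      rw [dF]
      refine normSq_pos.2 (mul_ne_zero (by exact_mod_cast hn.ne') (pow_ne_zero _ ?_))
      simpa [P] using hs)
    (hr.comp (hG.comp ho)) fun z hz => by rw [eF, hb _ (by rw [hno, hz])]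
  exact ⟨o z, by rw [hno]; exact hz, hr0 _ h⟩

end Pool.Agent.MP_b8ade4_gt.Deg
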