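import Pool.Agent.MP_b8ade4_gt.CFin
import Mathlib.AlgebraicTopology.FundamentalGroupoid.FundamentalGroup
import Mathlib.GroupTheory.OrderOfElement
import Mathlib.Topology.Algebra.Order.Floor

/-! Loops of finite order. -/

namespace Pool.Agent.MP_b8ade4_gt

open Set unitInterval

variable {X Y : Type*} [TopologicalSpace X] [TopologicalSpace Y] {x y : X}

/-- the class of a loop -/
noncomputable abbrev cls (a : Path x x) : FundamentalGroup X x :=
  FundamentalGroup.fromPath (Path.Homotopic.Quotient.mk a)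

/-- the periodic extension of a loop -/
noncomputable def per (a : Path x x) (s : ℝ) : X := a.extend (Int.fract s)

theorem continuous_per (a : Path x x) : Continuous (per a) :=
  a.continuous_extend.continuousOn.comp_fract'' (by simp)

theorem per_add (a : Path x x) (n : ℕ) (s : I) : per a (n + s) = a s := by
  rw [per, Int.fract_natCast_add]
  rcases s.2.2.eq_or_lt with h | h
  · rw [h, show s = 1 from Subtype.ext h]; simp
  · rw [Int.fract_eq_self.2 ⟨s.2.1, h⟩, Path.extend_extends']

theorem per_nat (a : Path x x) (n : ℕ) : per a n = x := by simpa using per_add a n 0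

/-- the loop run `n` times -/
noncomputable def pw (a : Path x x) (n : ℕ) : Path x x :=
  ⟨⟨fun θ => per a (n * θ), (continuous_per a).comp (by fun_prop)⟩,
    by simpa using per_nat a 0, by simpa using per_nat a n⟩

theorem pw_succ (a : Path x x) (n : ℕ) : (pw a (n + 1)).Homotopic ((pw a n).trans a) := by
  refine ⟨⟨⟨⟨fun q => per a ((1 - q.1) * ((n + 1 : ℕ) * q.2) +
    q.1 * (n * min (2 * (q.2 : ℝ)) 1 + max (2 * (q.2 : ℝ) - 1) 0)), (continuous_per a).comp (by fun_prop)⟩,
    fun θ => by simp [pw], fun θ => ?_⟩, fun τ θ hθ => ?_⟩⟩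
  · simp only [Icc.coe_one, sub_self, zero_mul, one_mul, zero_add, Path.coe_toContinuousMap,
      Path.trans_apply]
    split_ifs with h
    · rw [min_eq_left (by linarith), max_eq_right (by linarith), add_zero]; rfl
    · rw [min_eq_right (by linarith), max_eq_left (by linarith), mul_one]
      exact per_add a n ⟨_, _⟩
  · rcases hθ with rfl | rfl
    · simpa using per_nat a 0
    · have : (1 - τ : ℝ) * ((n + 1 : ℕ) * ((1 : I) : ℝ)) +
          τ * (n * min (2 * ((1 : I) : ℝ)) 1 + max (2 * ((1 : I) : ℝ) - 1) 0) = (n + 1 : ℕ) := by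
        norm_num; ring
      simp only [ContinuousMap.coe_mk, this, per_nat, Path.coe_toContinuousMap, Path.target]

theorem cls_pow (a : Path x x) (n : ℕ) : cls a ^ n = cls (pw a n) := by
  induction n with
  | zero =>
    have : pw a 0 = Path.refl x := by
      ext θ; simpa [pw] using per_nat a 0
    rw [this]; rfl
  | succ n ih =>
    rw [pow_succ', ih]
    exact (Path.Homotopic.Quotient.eq.2 (pw_succ a n)).symm

theorem fin_iff (a : Path x x) :
    IsOfFinOrder (cls a) ↔ ∃ n, (pw a (n + 1)).Homotopic (Path.refl x) := by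
  rw [isOfFinOrder_iff_pow_eq_one]
  constructor
  · rintro ⟨n, hn, h⟩
    obtain ⟨n, rfl⟩ := Nat.exists_eq_succ_of_ne_zero hn.ne'
    rw [cls_pow] at h
    exact ⟨n, Path.Homotopic.Quotient.eq.1 h⟩
  · rintro ⟨n, h⟩
    exact ⟨n + 1, n.succ_pos, by rw [cls_pow]; exact Path.Homotopic.Quotient.eq.2 h⟩

theorem fin_conj (p : Path x y) (a : Path x x) :
    IsOfFinOrder (cls (p.symm.trans (a.trans p))) ↔ IsOfFinOrder (cls a) :=
  (FundamentalGroup.fundamentalGroupMulEquivOfPath p).injective.isOfFinOrder_iff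
    (f := (FundamentalGroup.fundamentalGroupMulEquivOfPath p).toMonoidHom) (x := cls a)

theorem fin_symm (a : Path x x) : IsOfFinOrder (cls a.symm) ↔ IsOfFinOrder (cls a) :=
  isOfFinOrder_inv_iff (x := cls a)

theorem fin_map (f : C(X, Y)) {a : Path x x} (h : IsOfFinOrder (cls a)) :
    IsOfFinOrder (cls (a.map f.continuous)) :=
  (FundamentalGroup.map f x).isOfFinOrder h

theorem fin_of_free (F : C(I × I, X)) (a : Path x x) (b : Path y y) (h0 : ∀ θ, F (θ, 0) = a θ)
    (h1 : ∀ θ, F (θ, 1) = b θ) (hs : ∀ τ, F (0, τ) = F (1, τ)) (h : IsOfFinOrder (cls a)) :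
    IsOfFinOrder (cls b) := by
  let p : Path x y := ⟨⟨fun τ => F (0, τ), by fun_prop⟩, by simp [h0], by simp [h1]⟩
  have e := squareQ F a p p b h0 (fun τ => (hs τ).symm) (fun _ => rfl) h1
  have e2 : cls (p.symm.trans (a.trans p)) = cls b := by
    show (Path.Homotopic.Quotient.mk p).symm.trans ((Path.Homotopic.Quotient.mk a).trans
      (Path.Homotopic.Quotient.mk p)) = Path.Homotopic.Quotient.mk b
    rw [e, ← Path.Homotopic.Quotient.trans_assoc, Path.Homotopic.Quotient.symm_trans,
      Path.Homotopic.Quotient.refl_trans]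
  rw [← e2]
  exact (fin_conj p a).2 h

theorem null_conj (p : Path x y) {a : Path x x} (h : a.Homotopic (Path.refl x)) :
    (p.symm.trans (a.trans p)).Homotopic (Path.refl y) := by
  rw [← Path.Homotopic.Quotient.eq] at h ⊢
  show (Path.Homotopic.Quotient.mk p).symm.trans ((Path.Homotopic.Quotient.mk a).trans
    (Path.Homotopic.Quotient.mk p)) = _
  rw [h, Path.Homotopic.Quotient.mk_refl, Path.Homotopic.Quotient.refl_trans,
    Path.Homotopic.Quotient.symm_trans, Path.Homotopic.Quotient.mk_refl]

end Pool.Agent.MP_b8ade4_gt
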