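import Pool.Agent.MP_b8ade4_gt.CFin

/-! Sums of three long embeddings placed one after the other. -/

namespace Pool.Agent.MP_b8ade4_gt

open Set Filter Topology

abbrev R3 := ℝ × ℝ × ℝ

/-- long embeddings in a box -/
abbrev Bx (T : ℝ) : Type := {γ : Long // InBox T γ.1}

namespace InBox

variable {T T' t : ℝ} {γ : ℝ → R3}

theorem lt (h : InBox T γ) (ht : t < T) : (γ t).1 < T := by
  by_cases c : |t| < T
  · exact (abs_lt.1 (h.2 t c)).2
  · rw [h.1 t (not_lt.1 c)]; exact ht

theorem gt (h : InBox T γ) (ht : -T < t) : -T < (γ t).1 := by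
  by_cases c : |t| < T
  · exact (abs_lt.1 (h.2 t c)).1
  · rw [h.1 t (not_lt.1 c)]; exact ht

theorem le (h : InBox T γ) (ht : t ≤ T) : (γ t).1 ≤ T := by
  rcases ht.eq_or_lt with c | c
  · rw [h.1 t (c ▸ le_abs_self t)]; exact ht
  · exact (h.lt c).le

theorem ge (h : InBox T γ) (ht : -T ≤ t) : -T ≤ (γ t).1 := by
  rcases ht.eq_or_lt with c | c
  · rw [h.1 t (le_abs.2 (Or.inr (by linarith)))]; exact ht
  · exact (h.gt c).le

theorem mono (h : InBox T γ) (hT : T ≤ T') : InBox T' γ := by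
  refine ⟨fun t ht => h.1 t (hT.trans ht), fun t ht => ?_⟩
  by_cases c : |t| < T
  · exact (h.2 t c).trans_le hT
  · rw [h.1 t (not_lt.1 c)]; exact ht

end InBox

/-- `x` moved by `-a`, then `m`, then `y` moved by `a` -/
noncomputable def tri (a : ℝ) (x m y : ℝ → R3) (t : ℝ) : R3 :=
  x (t + a) + m t + y (t + -a) - (2 * t, 0, 0)

section
variable {x m y : ℝ → R3} {T a t : ℝ}

theorem tri_left (hm : InBox (a - T) m) (hy : InBox T y) (hT : T ≤ a) (ht : t ≤ T - a) :
    tri a x m y t = x (t + a) - (a, 0, 0) := by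
  rw [tri, hm.1 t (le_abs.2 (Or.inr (by linarith))), hy.1 _ (le_abs.2 (Or.inr (by linarith)))]
  ext <;> simp
  ring

theorem tri_mid (hx : InBox T x) (hy : InBox T y) (h1 : T - a ≤ t) (h2 : t ≤ a - T) :
    tri a x m y t = m t := by
  rw [tri, hx.1 _ (le_abs.2 (Or.inl (by linarith))), hy.1 _ (le_abs.2 (Or.inr (by linarith)))]
  ext <;> simp
  ring

theorem tri_right (hx : InBox T x) (hm : InBox (a - T) m) (hT : T ≤ a) (ht : a - T ≤ t) :
    tri a x m y t = y (t + -a) + (a, 0, 0) := by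
  rw [tri, hm.1 t (le_abs.2 (Or.inl ht)), hx.1 _ (le_abs.2 (Or.inl (by linarith)))]
  ext <;> simp
  ring

end

theorem smf_tri {Z : Type*} [TopologicalSpace Z] {x m y : Z → ℝ → R3} {a : Z → ℝ} (hx : SmF x)
    (hm : SmF m) (hy : SmF y) (ha : Continuous a) : SmF fun z => tri (a z) (x z) (m z) (y z) :=
  (((hx.comp continuous_id ha).add hm).add (hy.comp continuous_id ha.neg)).sub
    (SmF.of_contDiff (f := fun t : ℝ => ((2 * t, 0, 0) : R3)) (by fun_prop))

theorem Long.diff (γ : Long) : Differentiable ℝ γ.1 := γ.2.smooth.differentiable (by simp)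

section
variable {x m y : Long} {T a t : ℝ}

theorem tri_smooth : ContDiff ℝ (⊤ : ℕ∞) (tri a x.1 m.1 y.1) :=
  (smf_tri (Z := Unit) (.of_contDiff x.2.smooth) (.of_contDiff m.2.smooth)
    (.of_contDiff y.2.smooth) continuous_const).contDiff ()

theorem dtri_left (hm : InBox (a - T) m.1) (hy : InBox T y.1) (hT : T ≤ a) (ht : t ≤ T - a) :
    deriv (tri a x.1 m.1 y.1) t = deriv x.1 (t + a) :=
  (uniqueDiffWithinAt_Iic t).eq_deriv _
    ((tri_smooth.differentiable (by simp) t).hasDerivAt.hasDerivWithinAt)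
    ((((x.diff _).hasDerivAt.comp_add_const t a).sub_const _).hasDerivWithinAt.congr
      (fun _ hs => tri_left hm hy hT (le_trans hs ht)) (tri_left hm hy hT ht))

theorem dtri_right (hx : InBox T x.1) (hm : InBox (a - T) m.1) (hT : T ≤ a) (ht : a - T ≤ t) :
    deriv (tri a x.1 m.1 y.1) t = deriv y.1 (t + -a) :=
  (uniqueDiffWithinAt_Ici t).eq_deriv _
    ((tri_smooth.differentiable (by simp) t).hasDerivAt.hasDerivWithinAt)
    ((((y.diff _).hasDerivAt.comp_add_const t (-a)).add_const _).hasDerivWithinAt.congr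
      (fun _ hs => tri_right hx hm hT (le_trans ht hs)) (tri_right hx hm hT ht))

theorem tri_box (hx : InBox T x.1) (hm : InBox (a - T) m.1) (hy : InBox T y.1) (h0 : 0 ≤ T)
    (hT : T ≤ a) : InBox (a + T) (tri a x.1 m.1 y.1) := by
  refine ⟨fun t ht => ?_, fun t ht => ?_⟩
  · rcases le_abs.1 ht with c | c
    · rw [tri_right hx hm hT (by linarith), hy.1 _ (le_abs.2 (Or.inl (by linarith)))]
      simp
    · rw [tri_left hm hy hT (by linarith), hx.1 _ (le_abs.2 (Or.inr (by linarith)))]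
      ext <;> simp
  · rw [abs_lt] at ht ⊢
    rcases le_total t (T - a) with c | c
    · rw [tri_left hm hy hT c, Prod.fst_sub]
      constructor <;> linarith [hx.gt (t := t + a) (by linarith), hx.le (t := t + a) (by linarith)]
    rcases le_total (a - T) t with d | d
    · rw [tri_right hx hm hT d, Prod.fst_add]
      constructor <;>
        linarith [hy.lt (t := t + -a) (by linarith), hy.ge (t := t + -a) (by linarith)]
    · rw [tri_mid hx hy c d]
      have h1 := (hm.mono (T' := a + T) (by linarith)).2 t (abs_lt.2 ht)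
      exact abs_lt.1 h1

theorem tri_long (hx : InBox T x.1) (hm : InBox (a - T) m.1) (hy : InBox T y.1) (h0 : 0 ≤ T)
    (hT : T ≤ a) : IsLong (tri a x.1 m.1 y.1) := by
  have loc : ∀ t, ∃ (γ : Long) (s : ℝ), (tri a x.1 m.1 y.1 t).2 = (γ.1 s).2 ∧
      deriv (tri a x.1 m.1 y.1) t = deriv γ.1 s := by
    intro t
    rcases le_total t (T - a) with c | c
    · exact ⟨x, _, by rw [tri_left hm hy hT c]; simp, dtri_left hm hy hT c⟩
    rcases le_total (a - T) t with d | d
    · exact ⟨y, _, by rw [tri_right hx hm hT d]; simp, dtri_right hx hm hT d⟩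
    rcases c.eq_or_lt with c' | c'
    · exact ⟨x, _, by rw [tri_left hm hy hT c'.ge]; simp, dtri_left hm hy hT c'.ge⟩
    rcases d.eq_or_lt with d' | d'
    · exact ⟨y, _, by rw [tri_right hx hm hT d'.ge]; simp, dtri_right hx hm hT d'.ge⟩
    refine ⟨m, t, by rw [tri_mid hx hy c d], EventuallyEq.deriv_eq ?_⟩
    filter_upwards [Ioo_mem_nhds c' d'] with s hs using tri_mid hx hy hs.1.le hs.2.le
  have A : ∀ t, t < T - a ↔ (tri a x.1 m.1 y.1 t).1 < T - a := by
    intro t
    refine ⟨fun c => ?_, fun c => lt_of_not_ge fun d => absurd c (not_lt.2 ?_)⟩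
    · rw [tri_left hm hy hT c.le, Prod.fst_sub]
      linarith [hx.lt (t := t + a) (by linarith)]
    · rcases le_total (a - T) t with e | e
      · rw [tri_right hx hm hT e, Prod.fst_add]
        linarith [hy.ge (t := t + -a) (by linarith)]
      · rw [tri_mid hx hy d e]
        linarith [hm.ge (t := t) (by linarith)]
  have B : ∀ t, a - T < t ↔ a - T < (tri a x.1 m.1 y.1 t).1 := by
    intro t
    refine ⟨fun c => ?_, fun c => lt_of_not_ge fun d => absurd c (not_lt.2 ?_)⟩
    · rw [tri_right hx hm hT c.le, Prod.fst_add]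
      linarith [hy.gt (t := t + -a) (by linarith)]
    · rcases le_total t (T - a) with e | e
      · rw [tri_left hm hy hT e, Prod.fst_sub]
        linarith [hx.le (t := t + a) (by linarith)]
      · rw [tri_mid hx hy e d]
        exact hm.le d
  refine ⟨tri_smooth, fun s t h => ?_, fun t => ?_, fun t => ?_, a + T,
    (tri_box hx hm hy h0 hT).1⟩
  · have a1 : s < T - a ↔ t < T - a := by rw [A, A t, h]
    have a2 : a - T < s ↔ a - T < t := by rw [B, B t, h]
    by_cases c : s < T - a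
    · rw [tri_left hm hy hT c.le, tri_left hm hy hT (a1.1 c).le, sub_left_inj] at h
      linarith [x.2.inj h]
    by_cases d : a - T < s
    · rw [tri_right hx hm hT d.le, tri_right hx hm hT (a2.1 d).le, add_left_inj] at h
      linarith [y.2.inj h]
    · rw [tri_mid hx hy (not_lt.1 c) (not_lt.1 d),
        tri_mid hx hy (not_lt.1 (mt a1.2 c)) (not_lt.1 (mt a2.2 d))] at h
      exact m.2.inj h
  · obtain ⟨γ, s, -, e⟩ := loc t
    rw [e]; exact γ.2.imm s
  · obtain ⟨γ, s, e1, e⟩ := loc t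
    rw [e, e1]; exact γ.2.leg s

end

/-- the sum of three continuous families -/
noncomputable def triC {Z : Type*} [TopologicalSpace Z] (a : Z → ℝ) (x m y : Z → Long)
    (ha : Continuous a) (cx : Continuous x) (cm : Continuous m) (cy : Continuous y) {T K : ℝ}
    (hx : ∀ z, InBox T (x z).1) (hm : ∀ z, InBox (a z - T) (m z).1) (hy : ∀ z, InBox T (y z).1)
    (h0 : 0 ≤ T) (hT : ∀ z, T ≤ a z) (hK : ∀ z, a z + T ≤ K) : C(Z, Bx K) :=
  ⟨fun z => ⟨⟨tri (a z) (x z).1 (m z).1 (y z).1, tri_long (hx z) (hm z) (hy z) h0 (hT z)⟩,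
      (tri_box (hx z) (hm z) (hy z) h0 (hT z)).mono (hK z)⟩,
    Continuous.subtype_mk (continuous_long (T := K)
      (smf_tri (smf_of_long cx) (smf_of_long cm) (smf_of_long cy) ha)
      fun z => ((tri_box (hx z) (hm z) (hy z) h0 (hT z)).mono (hK z)).1) _⟩

/-- the straight line -/
noncomputable def line : Long :=
  ⟨fun t => (t, 0, 0), by fun_prop, fun _ _ h => congrArg Prod.fst h,
    fun t h => by
      rw [((hasDerivAt_id' t).prodMk (hasDerivAt_const t ((0, 0) : ℝ × ℝ))).deriv] at h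
      exact one_ne_zero (congrArg Prod.fst h),
    fun t => by
      rw [((hasDerivAt_id' t).prodMk (hasDerivAt_const t ((0, 0) : ℝ × ℝ))).deriv]; simp,
    0, fun _ _ => rfl⟩

theorem line_box (T : ℝ) : InBox T line.1 := ⟨fun _ _ => rfl, fun _ h => h⟩

theorem glue_tri {x y : ℝ → R3} {R : ℝ} (hx : InBox R x) (hy : InBox R y) :
    glue R x y = tri R x line.1 y := by
  funext t
  unfold glue
  split_ifs with h
  · exact (tri_left (T := R) (line_box _) hy le_rfl (by linarith)).symm
  · rw [tri_right (T := R) hx (line_box _) le_rfl (by linarith), sub_eq_add_neg]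

theorem Bx.ext {T : ℝ} {a b : Bx T} (h : a.1.1 = b.1.1) : a = b := Subtype.ext (Subtype.ext h)

/-- the connected sum of two continuous families -/
noncomputable def glueC {Z : Type*} [TopologicalSpace Z] (a : Z → ℝ) (x y : Z → Long)
    (ha : Continuous a) (cx : Continuous x) (cy : Continuous y) {T K : ℝ}
    (hx : ∀ z, InBox T (x z).1) (hy : ∀ z, InBox T (y z).1)
    (h0 : 0 ≤ T) (hT : ∀ z, T ≤ a z) (hK : ∀ z, a z + T ≤ K) : C(Z, Bx K) :=
  triC a x (fun _ => line) y ha cx continuous_const cy hx (fun _ => line_box _) hy h0 hT hK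

theorem glueC_val {Z : Type*} [TopologicalSpace Z] {a : Z → ℝ} {x y : Z → Long}
    {ha : Continuous a} {cx : Continuous x} {cy : Continuous y} {T K : ℝ}
    {hx : ∀ z, InBox T (x z).1} {hy : ∀ z, InBox T (y z).1}
    {h0 : 0 ≤ T} {hT : ∀ z, T ≤ a z} {hK : ∀ z, a z + T ≤ K} (z : Z) :
    (glueC a x y ha cx cy hx hy h0 hT hK z).1.1 = glue (a z) (x z).1 (y z).1 :=
  (glue_tri ((hx z).mono (hT z)) ((hy z).mono (hT z))).symm

/-- the sum of two sums, seen from the middle -/
theorem glue_glue {d₁ x y d₂ : ℝ → R3} {T R : ℝ} (h₁ : InBox T d₁) (hx : InBox T x)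
    (hy : InBox T y) (h₂ : InBox T d₂) (b₁ : InBox R (glue T d₁ x)) (b₂ : InBox R (glue T y d₂))
    (hR : T ≤ R - T) : glue R (glue T d₁ x) (glue T y d₂) =
      tri (R + T) d₁ (glue (R - T) x y) d₂ := by
  rw [glue_tri b₁ b₂, glue_tri h₁ hx, glue_tri hy h₂, glue_tri (hx.mono hR) (hy.mono hR)]
  funext t
  simp only [tri, line]
  rw [show t + R + T = t + (R + T) by ring, show t + R + -T = t + (R - T) by ring,
    show t + -R + T = t + -(R - T) by ring, show t + -R + -T = t + -(R + T) by ring]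
  ext <;> simp <;> ring

end Pool.Agent.MP_b8ade4_gt
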