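import Pool.Agent.MP_b8ade4_gt.h67.Abs
import Pool.Agent.MP_b8ade4_gt.h67.Pw
import Pool.Agent.MP_b8ade4_gt.h67.Sum

/-! The loop keeps infinite order after a connected sum with any long embedding. -/

namespace Pool.Agent.MP_b8ade4_gt

open Set unitInterval

/-- admissible values of secant data at a point of the square -/
def Ok (z : ℂ × ℝ) (ξ y : ℝ) : Prop := (z.1 = 0 → z.2 ≠ 0) ∧ (|ξ| = 1 ∨ |y| = 1 → z.1 ≠ 0)

/-- the space of secant data -/
abbrev FF : Type := {V : C(ℝ × ℝ, ℂ × ℝ) // ∀ ζ, Ok (V ζ) (c1 ζ.1) (c1 ζ.2)}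

noncomputable def mkF {P : Type*} [TopologicalSpace P] (f : P → ℝ → ℝ → ℂ × ℝ)
    (hf : Continuous fun q : P × ℝ × ℝ => f q.1 q.2.1 q.2.2)
    (h : ∀ p ξ y, |ξ| ≤ 1 → |y| ≤ 1 → Ok (f p ξ y) ξ y) : C(P, FF) :=
  ⟨fun p => ⟨⟨fun ζ => f p (c1 ζ.1) (c1 ζ.2),
      hf.comp (f := fun ζ : ℝ × ℝ => (p, c1 ζ.1, c1 ζ.2)) (by fun_prop)⟩,
      fun _ => h p _ _ (abs_c1 _) (abs_c1 _)⟩,
    Continuous.subtype_mk (ContinuousMap.continuous_of_continuous_uncurry _ (by
      exact hf.comp (f := fun q : P × ℝ × ℝ => (q.1, c1 q.2.1, c1 q.2.2)) (by fun_prop))) _⟩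

theorem FF.ext {a b : FF} (h : ∀ ζ, a.1 ζ = b.1 ζ) : a = b := Subtype.ext (ContinuousMap.ext h)

/-- a loop of secant data has finite order -/
def FinV (f : I → ℝ → ℝ → ℂ × ℝ) : Prop :=
  ∃ (x : FF) (a : Path x x), (∀ θ ζ, (a θ).1 ζ = f θ (c1 ζ.1) (c1 ζ.2)) ∧ IsOfFinOrder (cls a)

theorem FinV.step {f g : I → ℝ → ℝ → ℂ × ℝ} (hf : FinV f) (F : I × I → ℝ → ℝ → ℂ × ℝ)
    (hF : Continuous fun q : (I × I) × ℝ × ℝ => F q.1 q.2.1 q.2.2)
    (h : ∀ p ξ y, |ξ| ≤ 1 → |y| ≤ 1 → Ok (F p ξ y) ξ y)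
    (h0 : ∀ θ ξ y, |ξ| ≤ 1 → |y| ≤ 1 → F (θ, 0) ξ y = f θ ξ y)
    (h1 : ∀ θ ξ y, |ξ| ≤ 1 → |y| ≤ 1 → F (θ, 1) ξ y = g θ ξ y)
    (hs : ∀ τ, F (0, τ) = F (1, τ)) : FinV g := by
  obtain ⟨x, a, ha, hf⟩ := hf
  let K := mkF F hF h
  have e : ∀ τ, K (0, τ) = K (1, τ) := fun τ => FF.ext fun ζ => by
    show F (0, τ) _ _ = F (1, τ) _ _
    rw [hs]
  let b : Path (K (0, 1)) (K (0, 1)) := ⟨⟨fun θ => K (θ, 1), by fun_prop⟩, rfl, (e 1).symm⟩
  exact ⟨_, b, fun θ ζ => h1 θ _ _ (abs_c1 _) (abs_c1 _), fin_of_free K a b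
    (fun θ => FF.ext fun ζ => (h0 θ _ _ (abs_c1 _) (abs_c1 _)).trans (ha θ ζ).symm)
    (fun _ => rfl) e hf⟩

theorem not_finV {l : ℝ} (hl : 0 < l) (hl' : l ≤ 1 / 2) (hW : Win l) {S L : ℝ}
    (hS : 2000 ≤ S) (hL : 1000 ≤ L) :
    ¬ FinV fun θ ξ y => VV (al l θ) (S * ξ) (L * (y + 1)) := by
  rintro ⟨x, a, ha, hf⟩
  obtain ⟨n, ⟨H⟩⟩ := (fin_iff a).1 hf
  let j : ℝ → I := fun x => projIcc 0 1 zero_le_one ((x + 1) / 2)
  have hj : Continuous j := continuous_projIcc.comp (by fun_prop)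
  have j0 : j (-1) = 0 := by simp [j]
  have j1 : j 1 = 1 := by simp [j]
  refine abs_false hl hl' hW hS hL n (V := fun z => (H (j z.2.2, j z.2.1)).1 z.1) ?_
    (fun z => ((H _).2 _).1) (fun ζ η hζ _ => ((H _).2 _).2 ?_) (fun η hη c ζ hζ => ?_)
    fun η hη c ζ hζ => ?_
  · have : Continuous fun z : E4 => (H (j z.2.2, j z.2.1)).1 :=
      continuous_subtype_val.comp (H.continuous.comp (by fun_prop))
    fun_prop
  · obtain ⟨⟨z1, z2⟩, q⟩ := norm2_eq.1 hζ
    rwa [c1_id z1, c1_id z2]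
  · obtain ⟨z1, z2⟩ := norm2_le.1 hζ
    have q := abs_le.1 (norm2_le.1 hη).1
    have e : H (0, j η.1) = pw a (n + 1) (j η.1) := H.toHomotopy.apply_zero _
    have e2 : ((j η.1 : I) : ℝ) = (η.1 + 1) / 2 := by
      simp only [j]
      rw [projIcc_of_mem _ ⟨by linarith, by linarith⟩]
    show (H (j η.2, j η.1)).1 ζ = _
    rw [c, j0, e]
    show (a.extend (Int.fract (((n + 1 : ℕ) : ℝ) * (j η.1 : ℝ)))).1 ζ = _
    rw [e2, Path.extend_apply a ⟨Int.fract_nonneg _, (Int.fract_lt_one _).le⟩, ha, c1_id z1,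
      c1_id z2]
  · obtain ⟨z1, z2⟩ := norm2_le.1 hζ
    have e : H (j η.2, j η.1) = a 0 := by
      rw [a.source]
      rcases c with c | c
      · rw [c, j1]; exact H.toHomotopy.apply_one _
      · rcases (abs_eq (zero_le_one' ℝ)).1 c with c | c
        · rw [c, j1, H.target]
        · rw [c, j0, H.source]
    show (H (j η.2, j η.1)).1 ζ = _
    rw [e, ha, c1_id z1, c1_id z2]
    rfl

theorem continuous_VV {X : Type*} [TopologicalSpace X] {u : X → ℝ → ℂ} {s l : X → ℝ}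
    (hu : Continuous fun q : X × ℝ => u q.1 q.2) (hs : Continuous s) (hl : Continuous l) :
    Continuous fun x => VV (u x) (s x) (l x) :=
  (continuous_sec hu hs hl).prodMk
    ((continuous_A hu).comp (f := fun x => (x, s x, s x + l x)) (by fun_prop))

theorem VV_congr {u v : ℝ → ℂ} {s len c : ℝ} (hl : 0 ≤ len)
    (h : ∀ τ, s ≤ τ → τ ≤ s + len → u τ = v (τ + c)) : VV u s len = VV v (s + c) len := by
  refine Prod.ext ?_ ?_
  · refine intervalIntegral.integral_congr fun y hy => ?_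
    rw [uIcc_of_le zero_le_one] at hy
    show u _ = v _
    rw [h _ (by nlinarith [hy.1]) (by nlinarith [hy.2]), add_right_comm]
  · show A u s (s + len) = A v (s + c) (s + c + len)
    rw [A_congr (by linarith) fun τ hτ => h τ hτ.1 hτ.2, A_shift, add_right_comm]

/-- control at infinity -/
structure Ctl (u : ℝ → ℂ) (T M : ℝ) : Prop where
  cont : Continuous u
  ne : ∀ t, u t ≠ 0
  emb : Emb u
  pos : ∀ t, T ≤ |t| → 0 < (u t).re
  dev : Dev u M

theorem Ctl.mono {u : ℝ → ℂ} {T M T' M' : ℝ} (h : Ctl u T M) (hT : T ≤ T') (hM : M ≤ M') :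
    Ctl u T' M' :=
  ⟨h.cont, h.ne, h.emb, fun t ht => h.pos t (hT.trans ht),
    fun s t hst => le_trans (by linarith) (h.dev s t hst)⟩

theorem Gd.ctl {u : ℝ → ℂ} {T M : ℝ} (h : Gd u T M) : Ctl u T M :=
  ⟨h.cont, h.ne, h.emb, fun t ht => by rw [h.one t ht]; exact one_pos, h.dev⟩

theorem long_ctl {X : Type*} [TopologicalSpace X] [CompactSpace X] {γ : X → Long}
    (h : Continuous γ) : ∃ T M : ℝ, ∀ a, Ctl (lag (γ a).1) T M := by
  obtain ⟨T, M, hc⟩ := long_control h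
  exact ⟨T, M, fun a => ⟨((smf_lag (smf_of_long h)).diff a).continuous, (γ a).2.lag_ne,
    (γ a).2.emb, (hc a).1, (hc a).2⟩⟩

namespace Ctl

variable {u : ℝ → ℂ} {T M s len : ℝ}

theorem right (h : Ctl u T M) (hl : 0 ≤ len) (hs : T ≤ s) : 0 < (sec u s len).re :=
  sec_pos h.cont hl fun τ h1 _ => h.pos τ (le_abs.2 (Or.inl (hs.trans h1)))

theorem left (h : Ctl u T M) (hl : 0 ≤ len) (hs : s ≤ -(T + M)) : 0 < (sec u s len).re := by
  rcases le_or_gt len M with c | c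
  · exact sec_pos h.cont hl fun τ _ h2 => h.pos τ (le_abs.2 (Or.inr (by linarith)))
  · exact sec_pos' h.dev (h.dev.nonneg.trans_lt c) c

theorem ok (h : Ctl u T M) {L ξ y : ℝ} (hL : M < L) (hy : |y| ≤ 1)
    (hξ : |ξ| = 1 → sec u s (L * (y + 1)) ≠ 0) : Ok (VV u s (L * (y + 1))) ξ y := by
  have hM := h.dev.nonneg
  have q := abs_le.1 hy
  have hl : 0 ≤ L * (y + 1) := mul_nonneg (by linarith) (by linarith)
  refine ⟨fun e => ?_, fun c => ?_⟩
  · obtain ⟨a, b⟩ := chord_of_sec h.ne hl e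
    exact h.emb _ _ a b
  · rcases c with c | c
    · exact hξ c
    · show sec u s _ ≠ 0
      rcases (abs_eq (zero_le_one' ℝ)).1 c with c | c
      · intro e
        have := sec_pos' (s := s) (l := L * (y + 1)) h.dev (by rw [c]; linarith)
          (by rw [c]; linarith)
        rw [e] at this; exact lt_irrefl _ this
      · rw [c, neg_add_cancel, mul_zero, sec_zero]; exact h.ne s

end Ctl

theorem ne_of_re {z : ℂ} (h : 0 < z.re) : z ≠ 0 := by
  rintro rfl; exact lt_irrefl _ h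

theorem ok_seg {a b : ℂ × ℝ} (ha : 0 < a.1.re) (hb : 0 < b.1.re) {μ : ℝ} (h0 : 0 ≤ μ)
    (h1 : μ ≤ 1) (ξ y : ℝ) : Ok ((1 - μ) • a + μ • b) ξ y := by
  have : ((1 - μ) • a + μ • b).1 ≠ 0 := by
    refine ne_of_re ?_
    simp only [Prod.fst_add, Prod.smul_fst, Complex.add_re, Complex.smul_re, smul_eq_mul]
    rcases h0.eq_or_lt with c | c
    · rw [← c]; simpa
    · nlinarith [mul_pos c hb, mul_nonneg (sub_nonneg.2 h1) ha.le]
  exact ⟨fun e => absurd e this, fun _ => this⟩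

theorem sec_re_pos {u : ℝ → ℂ} {s len : ℝ} (hl : 0 < len) (h : 0 < (W u s (s + len)).re) :
    0 < (sec u s len).re := by
  rw [← sec_mul, Complex.re_ofReal_mul] at h
  exact (pos_iff_pos_of_mul_pos h).1 hl

theorem W_lag_re (γ : Long) (s t : ℝ) : (W (lag γ.1) s t).re = (γ.1 t).1 - (γ.1 s).1 := by
  rw [W_lag γ.2.smooth]; simp

/-- the folded part of the abscissa -/
noncomputable def ψ (ξ : ℝ) : ℝ := max 0 (min (4 * ξ) (min 1 (2 - 2 * ξ)))

@[fun_prop] theorem continuous_ψ : Continuous ψ := by unfold ψ; fun_prop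

/-- secant data of `u`, followed by the reversed secant data of the right half of `u₀` -/
noncomputable def Phi (S L : ℝ) (u u₀ : ℝ → ℂ) (ξ y : ℝ) : ℂ × ℝ :=
  (1 - cl (4 * ξ - 1)) • VV u (S * (min ξ 0 + ψ ξ)) (L * (y + 1)) +
    cl (4 * ξ - 1) • VV u₀ (S * (min ξ 0 + ψ ξ)) (L * (y + 1))

theorem continuous_Phi {X : Type*} [TopologicalSpace X] {u : X → ℝ → ℂ} {u₀ : ℝ → ℂ}
    (hu : Continuous fun q : X × ℝ => u q.1 q.2) (h₀ : Continuous u₀) (S L : ℝ) :
    Continuous fun q : X × ℝ × ℝ => Phi S L (u q.1) u₀ q.2.1 q.2.2 := by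
  have a1 : Continuous fun q : X × ℝ × ℝ =>
      VV (u q.1) (S * (min q.2.1 0 + ψ q.2.1)) (L * (q.2.2 + 1)) :=
    continuous_VV (u := fun q : X × ℝ × ℝ => u q.1)
      (hu.comp (f := fun q : (X × ℝ × ℝ) × ℝ => (q.1.1, q.2)) (by fun_prop))
      (by fun_prop) (by fun_prop)
  have a2 : Continuous fun q : X × ℝ × ℝ =>
      VV u₀ (S * (min q.2.1 0 + ψ q.2.1)) (L * (q.2.2 + 1)) :=
    continuous_VV (u := fun _ : X × ℝ × ℝ => u₀) (h₀.comp continuous_snd)
      (by fun_prop) (by fun_prop)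
  exact (Continuous.smul (f := fun q : X × ℝ × ℝ => 1 - cl (4 * q.2.1 - 1)) (by fun_prop) a1).add
    (Continuous.smul (f := fun q : X × ℝ × ℝ => cl (4 * q.2.1 - 1)) (by fun_prop) a2)

theorem ψ_neg {ξ : ℝ} (h : ξ ≤ 0) : ψ ξ = 0 := max_eq_left (min_le_of_left_le (by linarith))
theorem ψ_one : ψ 1 = 0 := by norm_num [ψ]

theorem ok_Phi {u u₀ : ℝ → ℂ} {T M S L ξ y : ℝ} (h : Ctl u T M) (h₀ : Ctl u₀ T M)
    (h1 : ∀ len, 0 ≤ len → sec u₀ 0 len ≠ 0) (hS : T + M ≤ S) (hL : M < L) (hy : |y| ≤ 1) :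
    Ok (Phi S L u u₀ ξ y) ξ y := by
  have hM := h.dev.nonneg
  have hl : 0 ≤ L * (y + 1) := mul_nonneg (by linarith) (by linarith [(abs_le.1 hy).1])
  unfold Phi
  rcases le_total ξ (1 / 4) with c | c
  · rw [cl_zero (by linarith), sub_zero, one_smul, zero_smul, add_zero]
    refine h.ok hL hy fun e => ne_of_re (h.left hl ?_)
    rcases (abs_eq (zero_le_one' ℝ)).1 e with e | e
    · linarith
    · rw [e, ψ_neg (by norm_num)]; norm_num; linarith
  rcases le_total (1 / 2) ξ with d | d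
  · rw [cl_one (by linarith), sub_self, one_smul, zero_smul, zero_add]
    refine h₀.ok hL hy fun e => ?_
    rcases (abs_eq (zero_le_one' ℝ)).1 e with e | e
    · rw [e, ψ_one]; norm_num; exact h1 _ hl
    · linarith
  · have e : min ξ 0 + ψ ξ = 1 := by
      rw [min_eq_right (by linarith), ψ, min_eq_left (a := (1 : ℝ)) (by linarith),
        min_eq_right (by linarith)]
      norm_num
    rw [e, mul_one]
    exact ok_seg (h.right hl (by linarith)) (h₀.right hl (by linarith)) (cl_nonneg _)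
      (cl_le_one _) _ _

theorem pw_apply {X : Type*} [TopologicalSpace X] {x : X} (a : Path x x) (n : ℕ) (θ : I) :
    pw a n θ = a (projIcc 0 1 zero_le_one (Int.fract (n * (θ : ℝ)))) := rfl

theorem inf_order {l : ℝ} (hl : 0 < l) (hl' : l ≤ 1 / 2) (hW : Win l) {γ : Long} (α : Path γ γ)
    {n : I × I → ℝ → ℂ} (hn : Continuous fun q : (I × I) × ℝ => n q.1 q.2) {K B : ℝ}
    (hg : ∀ q, Gd (n q) K B) (h0 : ∀ θ, n (θ, 0) = al l θ) (h1 : ∀ θ, n (θ, 1) = lag (α θ).1)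
    (hs : ∀ τ, n (0, τ) = n (1, τ)) {T : ℝ} (hT : 0 ≤ T) (hK : K ≤ T)
    (hα : ∀ θ, InBox T (α θ).1) {δ : Long} (hδ : InBox T δ.1) {c : Long} (b : Path c c)
    (hb : ∀ θ, (b θ).1 = glue T (α θ).1 δ.1) : ¬ IsOfFinOrder (cls b) := by
  intro hf
  obtain ⟨N, ⟨G⟩⟩ := (fin_iff b).1 hf
  have hG : Continuous fun q : I × I => G (q.2, q.1) := G.continuous.comp continuous_swap
  obtain ⟨T₁, M₁, k₁⟩ := long_ctl hG
  obtain ⟨T₂, M₂, k₂⟩ := long_ctl b.continuous
  obtain ⟨T₀, t1, t2, t3⟩ : ∃ T₀, T₁ ≤ T₀ ∧ T₂ ≤ T₀ ∧ T ≤ T₀ :=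
    ⟨max T₁ (max T₂ T), le_max_left _ _, le_max_of_le_right (le_max_left _ _),
      le_max_of_le_right (le_max_right _ _)⟩
  obtain ⟨M, m1, m2, m3⟩ : ∃ M, M₁ ≤ M ∧ M₂ ≤ M ∧ B ≤ M :=
    ⟨max M₁ (max M₂ B), le_max_left _ _, le_max_of_le_right (le_max_left _ _),
      le_max_of_le_right (le_max_right _ _)⟩
  replace k₁ := fun q => (k₁ q).mono t1 m1
  replace k₂ := fun q => (k₂ q).mono t2 m2
  have k₃ := fun q => (hg q).ctl.mono hK m3
  have hM := (k₂ 0).dev.nonneg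
  obtain ⟨S, hS⟩ : ∃ S, S = T₀ + T + M + 2000 := ⟨_, rfl⟩
  obtain ⟨L, hL⟩ : ∃ L, L = M + 1000 := ⟨_, rfl⟩
  have hML : M < L := by linarith
  have hS0 : 0 ≤ S := by linarith
  have hlen : ∀ y : ℝ, |y| ≤ 1 → 0 ≤ L * (y + 1) := fun y hy =>
    mul_nonneg (by linarith) (by linarith [(abs_le.1 hy).1])
  have cb : Continuous fun q : I × ℝ => lag (b q.1).1 q.2 :=
    (smf_lag (smf_of_long b.continuous)).cont
  have ca : Continuous fun q : I × ℝ => lag (α q.1).1 q.2 :=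
    (smf_lag (smf_of_long α.continuous)).cont
  have e3 : ∀ θ, (b θ).1 = tri T (α θ).1 line.1 δ.1 := fun θ => by
    rw [hb, glue_tri (hα θ) hδ]
  have eL : ∀ θ t, t ≤ 0 → lag (b θ).1 t = lag (α θ).1 (t + T) := fun θ t ht => by
    rw [lag, lag, e3, dtri_left (T := T) (line_box _) hδ le_rfl (by linarith)]
  have eR : ∀ θ t, 0 ≤ t → lag (b θ).1 t = lag δ.1 (t + -T) := fun θ t ht => by
    rw [lag, lag, e3, dtri_right (T := T) (hα θ) (line_box _) le_rfl (by linarith)]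
  have pb : ∀ θ s len, s ≤ 0 → 0 < s + len → 0 < (sec (lag (b θ).1) s len).re := by
    intro θ s len a1 a2
    refine sec_re_pos (by linarith) ?_
    rw [W_lag_re, e3, tri_left (T := T) (line_box _) hδ le_rfl (t := s) (by linarith),
      tri_right (T := T) (hα θ) (line_box _) le_rfl (t := s + len) (by linarith), Prod.fst_sub,
      Prod.fst_add]
    linarith [(hα θ).le (t := s + T) (by linarith), hδ.gt (t := s + len + -T) (by linarith)]
  have nb : ∀ θ len, 0 ≤ len → sec (lag (b θ).1) 0 len ≠ 0 := by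
    intro θ len a
    rcases a.eq_or_lt with q | q
    · rw [← q, sec_zero]; exact (k₂ θ).ne 0
    · exact ne_of_re (pb θ 0 len le_rfl (by linarith))
  have s0 : FinV fun θ ξ y => Phi S L (lag (b θ).1) (lag (b 0).1) ξ y := by
    let K₀ := mkF (fun θ : I => Phi S L (lag (b θ).1) (lag (b 0).1))
      (continuous_Phi (u := fun θ : I => lag (b θ).1) cb (k₂ 0).cont S L)
      fun θ ξ y _ hy => ok_Phi (k₂ θ) (k₂ 0) (nb 0) (by linarith) hML hy
    let K₁ := mkF (fun q : I × I => Phi S L (lag (G (q.2, q.1)).1) (lag (b 0).1))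
      (continuous_Phi (u := fun q : I × I => lag (G (q.2, q.1)).1)
        (smf_lag (smf_of_long hG)).cont (k₂ 0).cont S L)
      fun q ξ y _ hy => ok_Phi (k₁ q) (k₂ 0) (nb 0) (by linarith) hML hy
    let a : Path (K₀ 0) (K₀ 0) := ⟨K₀, rfl, FF.ext fun ζ => by
      show Phi S L (lag (b 1).1) _ _ _ = Phi S L (lag (b 0).1) _ _ _
      rw [b.source, b.target]⟩
    refine ⟨_, a, fun _ _ => rfl, (fin_iff a).2 ⟨N, null_of_free K₁ _ (Path.refl (K₁ (0, 1)))
      (fun θ => FF.ext fun ζ => ?_) (fun θ => FF.ext fun ζ => ?_) (fun τ => FF.ext fun ζ => ?_)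
      (Path.Homotopic.refl _)⟩⟩
    · show Phi S L (lag (G (0, θ)).1) _ _ _ = _
      rw [show G (0, θ) = pw b (N + 1) θ from G.toHomotopy.apply_zero θ, pw_apply, pw_apply]
      rfl
    · show Phi S L (lag (G (1, θ)).1) _ _ _ = Phi S L (lag (G (1, 0)).1) _ _ _
      simp
    · show Phi S L (lag (G (τ, 0)).1) _ _ _ = Phi S L (lag (G (τ, 1)).1) _ _ _
      simp
  have b01 : b 0 = b 1 := by rw [b.source, b.target]
  have a01 : α 0 = α 1 := by rw [α.source, α.target]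
  have s1 : FinV fun θ ξ y => VV (lag (b θ).1) (S * min ξ 0) (L * (y + 1)) := by
    refine s0.step (fun q ξ y => VV (lag (b q.1).1) (S * (min ξ 0 + (1 - q.2) * ψ ξ)) (L * (y + 1)))
      (continuous_VV (u := fun q : (I × I) × ℝ × ℝ => lag (b q.1.1).1)
        (cb.comp (f := fun q : ((I × I) × ℝ × ℝ) × ℝ => (q.1.1.1, q.2)) (by fun_prop))
        (by fun_prop) (by fun_prop))
      (fun q ξ y _ hy => (k₂ q.1).ok hML hy fun e => ?_) (fun θ ξ y _ hy => ?_)
      (fun θ ξ y _ _ => by simp) fun τ => by simp only [b01]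
    · rcases (abs_eq (zero_le_one' ℝ)).1 e with e | e
      · rw [e, ψ_one]; norm_num; exact nb _ _ (hlen y hy)
      · refine ne_of_re ((k₂ q.1).left (hlen y hy) ?_)
        rw [e, ψ_neg (by norm_num)]; norm_num; linarith
    · simp only [Icc.coe_zero, sub_zero, one_mul, Phi]
      rcases le_total ξ 0 with c | c
      · rw [cl_zero (by linarith), sub_zero, one_smul, zero_smul, add_zero]
      · have : 0 ≤ S * (min ξ 0 + ψ ξ) := by
          rw [min_eq_right c, zero_add]; exact mul_nonneg hS0 (le_max_left _ _)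
        rw [VV_congr (v := lag δ.1) (hlen y hy) fun τ a _ => eR θ τ (this.trans a),
          VV_congr (v := lag δ.1) (hlen y hy) fun τ a _ => eR 0 τ (this.trans a), ← add_smul,
          sub_add_cancel, one_smul]
  have s2 : FinV fun θ ξ y => VV (lag (α θ).1) (S * min ξ 0 + T) (L * (y + 1)) := by
    refine s1.step (fun q ξ y => (1 - q.2 : ℝ) • VV (lag (b q.1).1) (S * min ξ 0) (L * (y + 1)) +
      (q.2 : ℝ) • VV (lag (α q.1).1) (S * min ξ 0 + T) (L * (y + 1)))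
      ((Continuous.smul (f := fun q : (I × I) × ℝ × ℝ => (1 - q.1.2 : ℝ)) (by fun_prop)
        (continuous_VV (u := fun q : (I × I) × ℝ × ℝ => lag (b q.1.1).1)
        (cb.comp (f := fun q : ((I × I) × ℝ × ℝ) × ℝ => (q.1.1.1, q.2)) (by fun_prop))
        (by fun_prop) (by fun_prop))).add
       (Continuous.smul (f := fun q : (I × I) × ℝ × ℝ => (q.1.2 : ℝ)) (by fun_prop)
        (continuous_VV (u := fun q : (I × I) × ℝ × ℝ => lag (α q.1.1).1)
        (ca.comp (f := fun q : ((I × I) × ℝ × ℝ) × ℝ => (q.1.1.1, q.2)) (by fun_prop))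
        (by fun_prop) (by fun_prop))))
      (fun q ξ y _ hy => ?_) (fun θ ξ y _ _ => by simp) (fun θ ξ y _ _ => by simp)
      fun τ => by simp only [b01, a01]
    have s0 : S * min ξ 0 ≤ 0 := mul_nonpos_of_nonneg_of_nonpos hS0 (min_le_right _ _)
    rcases le_or_gt (S * min ξ 0 + L * (y + 1)) 0 with c | c
    · rw [← VV_congr (hlen y hy) fun τ _ a => eL q.1 τ (a.trans c), ← add_smul, sub_add_cancel,
        one_smul]
      refine (k₂ q.1).ok hML hy fun e => ?_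
      rcases (abs_eq (zero_le_one' ℝ)).1 e with e | e
      · rw [e]; norm_num; exact nb _ _ (hlen y hy)
      · refine ne_of_re ((k₂ q.1).left (hlen y hy) ?_)
        rw [e]; norm_num; linarith
    · refine ok_seg (pb _ _ _ s0 c) (sec_re_pos (by linarith) ?_) q.2.2.1 q.2.2.2 _ _
      rw [W_lag_re, (hα q.1).1 _ (le_abs.2 (Or.inl (by linarith)))]
      linarith [(hα q.1).le (t := S * min ξ 0 + T) (by linarith)]
  refine not_finV hl hl' hW (S := S) (L := L) (by linarith) (by linarith) (s2.step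
    (fun q ξ y => VV (n (q.1, σ q.2)) ((1 - q.2) * (S * min ξ 0 + T) + q.2 * (S * ξ)) (L * (y + 1)))
    (continuous_VV (u := fun q : (I × I) × ℝ × ℝ => n (q.1.1, σ q.1.2))
      (hn.comp (f := fun q : ((I × I) × ℝ × ℝ) × ℝ => ((q.1.1.1, σ q.1.1.2), q.2)) (by fun_prop))
      (by fun_prop) (by fun_prop))
    (fun q ξ y _ hy => (k₃ _).ok hML hy fun e => ne_of_re ?_) (fun θ ξ y _ _ => by simp [h1])
    (fun θ ξ y _ _ => by simp [h0]) fun τ => by simp only [hs])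
  have q0 := q.2.2.1
  have q1 := q.2.2.2
  rcases (abs_eq (zero_le_one' ℝ)).1 e with e | e
  · refine (k₃ _).right (hlen y hy) ?_
    rw [e, min_eq_right zero_le_one]; nlinarith
  · refine (k₃ _).left (hlen y hy) ?_
    rw [e, min_eq_left (by norm_num)]; nlinarith

end Pool.Agent.MP_b8ade4_gt
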