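import Mathlib.Analysis.Calculus.BumpFunction.FiniteDimension
import Mathlib.MeasureTheory.Function.Jacobian
import Mathlib.Analysis.Calculus.InverseFunctionTheorem.ApproximatesLinearOn
import Mathlib.Algebra.Polynomial.Roots
import Mathlib.Analysis.Calculus.ContDiff.RCLike

/-! The integral of the Jacobian depends only on the values near the boundary. -/

open scoped Topology ContDiff
open Set Metric Filter MeasureTheory

namespace Pool.Agent.MP_b8ade4_gt.Jac

open Polynomial

variable {n : ℕ}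

/-- evaluation of a continuous function at a point, as a ring homomorphism -/
def evAt (z : Fin n → ℝ) : C(Fin n → ℝ, ℝ) →+* ℝ where
  toFun f := f z
  map_one' := rfl
  map_mul' _ _ := rfl
  map_zero' := rfl
  map_add' _ _ := rfl

theorem intOn {f : (Fin n → ℝ) → ℝ} (hf : Continuous f) (c : Fin n → ℝ) (R : ℝ) :
    IntegrableOn f (ball c R) :=
  (hf.continuousOn.integrableOn_compact (isCompact_closedBall c R)).mono_set ball_subset_closedBall

theorem integral_poly (P : Polynomial C(Fin n → ℝ, ℝ)) (c : Fin n → ℝ) (R : ℝ) :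
    ∃ q : Polynomial ℝ, ∀ t : ℝ, q.eval t = ∫ z in ball c R, P.eval₂ (evAt z) t := by
  refine ⟨∑ i ∈ Finset.range (P.natDegree + 1),
    C (∫ z in ball c R, P.coeff i z) * X ^ i, fun t => ?_⟩
  simp only [eval₂_eq_sum_range, eval_finsetSum, eval_mul, eval_C, eval_pow, eval_X]
  rw [integral_finsetSum (f := fun i z => evAt z (P.coeff i) * t ^ i) _
    fun i _ => (intOn (P.coeff i).continuous c R).mul_const _]
  refine Finset.sum_congr rfl fun i _ => ?_
  rw [← integral_mul_const]
  rfl

theorem det_eq (A : (Fin n → ℝ) →L[ℝ] (Fin n → ℝ)) (t : ℝ) :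
    (ContinuousLinearMap.id ℝ (Fin n → ℝ) + t • A).det =
      (Matrix.of fun i j : Fin n =>
        (if i = j then (1 : ℝ) else 0) + t * A (Pi.single j 1) i).det := by
  rw [ContinuousLinearMap.det, ← LinearMap.det_toMatrix']
  congr 1
  ext i j
  simp [LinearMap.toMatrix'_apply, Pi.single_apply]

/-- a small perturbation of the identity supported in a ball permutes the ball -/
theorem perm {h : (Fin n → ℝ) → (Fin n → ℝ)} {L : NNReal} (hL : LipschitzWith L h) {c : Fin n → ℝ}
    {R : ℝ} (h0 : ∀ z, z ∉ ball c R → h z = 0) {t : ℝ} (ht : |t| * (L : ℝ) < 1) :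
    Function.Injective (fun z => z + t • h z) ∧ (fun z => z + t • h z) '' ball c R = ball c R := by
  set F : (Fin n → ℝ) → (Fin n → ℝ) := fun z => z + t • h z with hF
  have happ : ApproximatesLinearOn F
      ((ContinuousLinearEquiv.refl ℝ (Fin n → ℝ) : (Fin n → ℝ) ≃L[ℝ] (Fin n → ℝ)) :
        (Fin n → ℝ) →L[ℝ] (Fin n → ℝ)) Set.univ (‖t‖₊ * L) := by
    intro x _ y _
    have e : F x - F y - (ContinuousLinearEquiv.refl ℝ (Fin n → ℝ) :
        (Fin n → ℝ) →L[ℝ] (Fin n → ℝ)) (x - y) = t • (h x - h y) := by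
      simp only [hF, smul_sub]
      simp
      abel
    rw [e, norm_smul, NNReal.coe_mul, coe_nnnorm, mul_assoc]
    exact mul_le_mul_of_nonneg_left (hL.norm_sub_le x y) (norm_nonneg _)
  have hcond : Subsingleton (Fin n → ℝ) ∨ ‖t‖₊ * L <
      ‖((ContinuousLinearEquiv.refl ℝ (Fin n → ℝ)).symm : (Fin n → ℝ) →L[ℝ] (Fin n → ℝ))‖₊⁻¹ := by
    rcases subsingleton_or_nontrivial (Fin n → ℝ) with h3 | h3
    · exact Or.inl h3
    · right
      have : ‖((ContinuousLinearEquiv.refl ℝ (Fin n → ℝ)).symm :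
          (Fin n → ℝ) →L[ℝ] (Fin n → ℝ))‖₊ = 1 := by
        simp
      rw [this, inv_one, ← NNReal.coe_lt_coe]
      simpa using ht
  have hinj : Function.Injective F := Set.injOn_univ.1 (happ.injOn hcond)
  have hsurj : Function.Surjective F := happ.surjective hcond
  have hfix : ∀ z, z ∉ ball c R → F z = z := fun z hz => by simp [hF, h0 z hz]
  refine ⟨hinj, ?_⟩
  ext y
  constructor
  · rintro ⟨x, hx, rfl⟩
    by_contra hy
    have := hinj (hfix _ hy)
    rw [this] at hy
    exact hy hx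
  · intro hy
    obtain ⟨x, rfl⟩ := hsurj y
    refine ⟨x, ?_, rfl⟩
    by_contra hx
    rw [hfix x hx] at hy
    exact hx hy

/-- the determinant is a null Lagrangian -/
theorem nullLag {h : (Fin n → ℝ) → (Fin n → ℝ)} (hh : ContDiff ℝ 1 h) {c : Fin n → ℝ} {R : ℝ}
    (h0 : ∀ z, z ∉ ball c R → h z = 0) :
    ∫ z in ball c R, (ContinuousLinearMap.id ℝ (Fin n → ℝ) + fderiv ℝ h z).det =
      ∫ _ in ball c R, (1 : ℝ) := by
  have hd : Differentiable ℝ h := hh.differentiable one_ne_zero
  have hDc : Continuous (fderiv ℝ h) := hh.continuous_fderiv one_ne_zero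
  have hKc := isCompact_closedBall c R
  have hcs : HasCompactSupport h :=
    HasCompactSupport.intro hKc fun z hz => h0 z fun k => hz (ball_subset_closedBall k)
  obtain ⟨L, hL⟩ := hh.lipschitzWith_of_hasCompactSupport hcs one_ne_zero
  set dt : ℝ → (Fin n → ℝ) → ℝ := fun t z =>
    (ContinuousLinearMap.id ℝ (Fin n → ℝ) + t • fderiv ℝ h z).det with hdt
  have hdtc : Continuous fun p : ℝ × (Fin n → ℝ) => dt p.1 p.2 := by
    simp only [hdt]
    exact ContinuousLinearMap.continuous_det.comp (by fun_prop)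
  have hpos : ∀ᶠ t in 𝓝 (0 : ℝ), ∀ z ∈ closedBall c R, 0 < dt t z := by
    refine hKc.eventually_forall_of_forall_eventually fun z _ => ?_
    refine continuousAt_const.eventually_lt hdtc.continuousAt ?_
    simp [hdt, ContinuousLinearMap.det]
  have hsmall : ∀ᶠ t : ℝ in 𝓝 (0 : ℝ), |t| * (L : ℝ) < 1 := by
    have h1 : ContinuousAt (fun t : ℝ => |t| * (L : ℝ)) 0 := by fun_prop
    exact h1.eventually_lt continuousAt_const (by simp)
  have hcv : ∀ᶠ t in 𝓝 (0 : ℝ), ∫ z in ball c R, dt t z = ∫ _ in ball c R, (1 : ℝ) := by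
    filter_upwards [hpos, hsmall] with t h1 h2
    obtain ⟨hinj, himg⟩ := perm hL h0 h2
    have hder : ∀ x ∈ ball c R, HasFDerivWithinAt (fun z => z + t • h z)
        (ContinuousLinearMap.id ℝ (Fin n → ℝ) + t • fderiv ℝ h x) (ball c R) x := fun x _ =>
      ((hasFDerivAt_id x).add ((hd x).hasFDerivAt.const_smul t)).hasFDerivWithinAt
    have := integral_image_eq_integral_abs_det_fderiv_smul volume measurableSet_ball hder
      hinj.injOn (fun _ => (1 : ℝ))
    rw [himg] at this
    rw [this]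
    refine setIntegral_congr_fun measurableSet_ball fun z hz => ?_
    have h3 := h1 z (ball_subset_closedBall hz)
    simp only [smul_eq_mul]
    rw [abs_of_pos h3, mul_one]
  set P : Polynomial C(Fin n → ℝ, ℝ) :=
    (Matrix.of fun i j : Fin n => (if i = j then (1 : Polynomial C(Fin n → ℝ, ℝ)) else 0) +
      X * C ⟨fun z => fderiv ℝ h z (Pi.single j 1) i, by fun_prop⟩).det with hP
  have hPe : ∀ t z, P.eval₂ (evAt z) t = dt t z := by
    intro t z
    change eval₂RingHom (evAt z) t P = _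
    simp only [hP, hdt, RingHom.map_det, det_eq]
    congr 1
    ext i j
    by_cases hij : i = j <;> simp [hij, evAt] <;> ring
  obtain ⟨q, hq⟩ := integral_poly P c R
  have hq' : q = C (∫ _ in ball c R, (1 : ℝ)) := by
    apply Polynomial.eq_of_infinite_eval_eq
    refine infinite_of_mem_nhds (0 : ℝ) ?_
    filter_upwards [hcv] with t ht
    simp only [hq, hPe, ht, eval_C]
  have := hq 1
  simp only [hPe, hdt, one_smul] at this
  rw [← this, hq', eval_C]

/-- two maps that agree near the boundary have the same integral of the Jacobian -/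
theorem jac_eq {h₀ h₁ : (Fin n → ℝ) → Fin n → ℝ} {W : Set (Fin n → ℝ)} {y₀ : Fin n → ℝ}
    {r r' ρ : ℝ} (hW : IsOpen W) (hs : closedBall y₀ r ⊆ W) (h0 : 0 < ρ) (h1 : r' < ρ) (h2 : ρ < r)
    (c0 : ContDiffOn ℝ 1 h₀ W) (c1 : ContDiffOn ℝ 1 h₁ W)
    (he : ∀ y ∈ closedBall y₀ r, r' < dist y y₀ → h₀ y = h₁ y) :
    ∫ z in ball y₀ ρ, (fderiv ℝ h₀ z).det = ∫ z in ball y₀ ρ, (fderiv ℝ h₁ z).det := by
  let b : ContDiffBump y₀ := ⟨ρ, r, h0, h2⟩
  have bz : ∀ z, z ∉ ball y₀ r → b z = 0 := fun z hz =>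
    b.zero_of_le_dist (by simpa using hz)
  have key : ∀ h : (Fin n → ℝ) → Fin n → ℝ, ContDiffOn ℝ 1 h W →
      ContDiff ℝ 1 (fun z => b z • (h z - z)) ∧ ∀ z ∈ ball y₀ ρ,
        ContinuousLinearMap.id ℝ (Fin n → ℝ) + fderiv ℝ (fun z => b z • (h z - z)) z =
          fderiv ℝ h z := by
    intro h hc
    refine ⟨contDiff_iff_contDiffAt.2 fun z => ?_, fun z hz => ?_⟩
    · by_cases k : z ∈ W
      · exact b.contDiff.contDiffAt.smul ((hc.contDiffAt (hW.mem_nhds k)).sub contDiffAt_id)
      · refine (contDiffAt_const (c := 0)).congr_of_eventuallyEq ?_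
        filter_upwards [isClosed_closedBall.isOpen_compl.mem_nhds fun a => k (hs a)] with w hw
        rw [bz w fun a => hw (ball_subset_closedBall a), zero_smul]
    · have e : (fun z => b z • (h z - z)) =ᶠ[𝓝 z] fun z => h z - z := by
        filter_upwards [isOpen_ball.mem_nhds hz] with w hw
        rw [b.one_of_mem_closedBall (ball_subset_closedBall hw), one_smul]
      have d : DifferentiableAt ℝ h z := (hc.contDiffAt (hW.mem_nhds (hs
        (ball_subset_closedBall (ball_subset_ball h2.le hz))))).differentiableAt one_ne_zero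
      have d' : HasFDerivAt (fun z => h z - z) _ z := d.hasFDerivAt.sub (hasFDerivAt_id z)
      rw [e.fderiv_eq, d'.fderiv]
      abel
  obtain ⟨a0, b0⟩ := key h₀ c0
  obtain ⟨a1, b1⟩ := key h₁ c1
  have i : ∀ {k : (Fin n → ℝ) → Fin n → ℝ}, ContDiff ℝ 1 k → ∀ R, IntegrableOn
      (fun z => (ContinuousLinearMap.id ℝ (Fin n → ℝ) + fderiv ℝ k z).det) (ball y₀ R) :=
    fun hk R => intOn (ContinuousLinearMap.continuous_det.comp
      (continuous_const.add (hk.continuous_fderiv one_ne_zero))) _ _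
  have n0 := nullLag a0 (c := y₀) (R := r) fun z hz => by rw [bz z hz, zero_smul]
  have n1 := nullLag a1 (c := y₀) (R := r) fun z hz => by rw [bz z hz, zero_smul]
  have e := sub_eq_zero.2 (n0.trans n1.symm)
  rw [← integral_sub (i a0 r) (i a1 r), setIntegral_eq_of_subset_of_forall_sdiff_eq_zero
    measurableSet_ball (ball_subset_ball h2.le), integral_sub (i a0 ρ) (i a1 ρ), sub_eq_zero,
    setIntegral_congr_fun measurableSet_ball fun z hz => congrArg _ (b0 z hz),
    setIntegral_congr_fun measurableSet_ball fun z hz => congrArg _ (b1 z hz)] at e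
  · exact e
  · intro z hz
    have : (fun z => b z • (h₀ z - z)) =ᶠ[𝓝 z] fun z => b z • (h₁ z - z) := by
      have o : IsOpen {w : Fin n → ℝ | r' < dist w y₀} := isOpen_lt continuous_const (by fun_prop)
      filter_upwards [o.mem_nhds (h1.trans_le (by simpa using hz.2))] with w hw
      by_cases k : w ∈ ball y₀ r
      · rw [he w (ball_subset_closedBall k) hw]
      · rw [bz w k, zero_smul, zero_smul]
    rw [this.fderiv_eq, sub_self]

end Pool.Agent.MP_b8ade4_gt.Jac
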