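import Pool.Agent.MP_b8ade4_gt.CFin
import Pool.Agent.MP_b8ade4_gt.h67.Defs2
import Mathlib.Analysis.SpecialFunctions.Integrals.Basic

/-! The double points of the smoothed base curve. -/

namespace Pool.Agent.MP_b8ade4_gt

open Set MeasureTheory Real

theorem kink {u : ℝ → ℂ} (hu : Continuous u) {a b m : ℝ} (hab : a < b) (hbm : b < m)
    (sym : ∀ τ, u (2 * m - τ) = (starRingEnd ℂ) (u τ)) (one : ∀ τ, τ ≤ a → u τ = 1)
    (im : ∀ τ, a < τ → τ < m → (u τ).im < 0) (rp : ∀ τ, τ < b → 0 < (u τ).re)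
    (rn : ∀ τ, b < τ → τ < m → (u τ).re < 0) (tot : 0 < (W u a m).re) :
    ∃ s t, a < s ∧ s < t ∧ t < 2 * m - a ∧
      (∀ s' t', s' < t' → (W u s' t' = 0 ↔ s' = s ∧ t' = t)) ∧ 0 < A u s t ∧
      (u s).re * (u t).im ≠ (u s).im * (u t).re := by
  have cre := Complex.continuous_re.comp hu
  have cim := Complex.continuous_im.comp hu
  have Ws : ∀ s t, W u (2 * m - t) (2 * m - s) = (starRingEnd ℂ) (W u s t) := fun s t => by
    rw [← W_conj, W, W, ← intervalIntegral.integral_comp_sub_left u]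
    simp only [sym]
  have Wm : ∀ s, W u m (2 * m - s) = (starRingEnd ℂ) (W u s m) := fun s => by
    rw [← Ws, show 2 * m - m = m by ring]
  have key : ∀ s t, s < t → t ≤ m → (W u s t).im = 0 → t ≤ a := by
    intro s t hst ht h
    by_contra c
    push Not at c
    have h1 : (W u s (max s a)).im = 0 := by
      rcases le_total s a with q | q
      · rw [max_eq_right q, W_one q fun τ hτ => one τ hτ.2, Complex.ofReal_im]
      · rw [max_eq_left q, W_self, Complex.zero_im]
    have h2 := intervalIntegral.intervalIntegral_pos_of_pos_on (f := fun τ => -(u τ).im)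
      (cim.neg.intervalIntegrable _ _)
      (fun τ hτ => neg_pos.2 (im τ ((le_max_right s a).trans_lt hτ.1) (hτ.2.trans_le ht)))
      (max_lt hst c)
    rw [intervalIntegral.integral_neg, ← W_im hu] at h2
    rw [← W_add hu s (max s a) t, Complex.add_im] at h
    linarith
  have fb : ∀ s, b ≤ s → s < m → (W u s m).re < 0 := by
    intro s h1 h2
    have := intervalIntegral.intervalIntegral_pos_of_pos_on (f := fun τ => -(u τ).re)
      (cre.neg.intervalIntegrable _ _) (fun τ hτ => neg_pos.2 (rn τ (h1.trans_lt hτ.1) hτ.2)) h2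
    rw [intervalIntegral.integral_neg, ← W_re hu] at this
    linarith
  have cf : Continuous fun s => (W u s m).re := by
    simp only [fun s => W_symm u m s]
    have := continuous_W_right hu m
    fun_prop
  obtain ⟨s, ⟨s1, s2⟩, hs⟩ := intermediate_value_Ioo' hab.le cf.continuousOn
    (show (0 : ℝ) ∈ Ioo (W u b m).re (W u a m).re from ⟨fb b le_rfl hbm, tot⟩)
  simp only at hs
  have fn : ∀ τ, s < τ → τ < m → (W u τ m).re < 0 := by
    intro τ h1 h2
    rcases le_or_gt b τ with q | q
    · exact fb τ q h2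
    · rw [← W_add hu s τ m, Complex.add_re] at hs
      linarith [W_re_pos hu h1 fun σ hσ => rp σ (hσ.2.trans_lt q)]
  have fp : ∀ τ, τ < s → 0 < (W u τ m).re := by
    intro τ h1
    rw [← W_add hu τ s m, Complex.add_re]
    linarith [W_re_pos hu h1 fun σ hσ => rp σ (hσ.2.trans_lt s2)]
  have h0 : W u s (2 * m - s) = 0 := by
    rw [← W_add hu s m, Wm, Complex.add_conj, hs]; simp
  have no : ∀ s' t', s' < t' → t' ≤ m → W u s' t' ≠ 0 := by
    intro s' t' h1 h2 h
    have q := key s' t' h1 h2 (by rw [h]; rfl)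
    rw [W_one h1.le fun τ hτ => one τ (hτ.2.trans q), Complex.ofReal_eq_zero] at h
    linarith
  refine ⟨s, 2 * m - s, s1, by linarith, by linarith, fun s' t' h1 => ⟨fun h => ?_, ?_⟩, ?_, ?_⟩
  · rcases le_or_gt t' m with c | c
    · exact absurd h (no s' t' h1 c)
    rcases le_or_gt m s' with d | d
    · exact absurd (by rw [Ws, h, map_zero]) (no (2 * m - t') (2 * m - s') (by linarith) (by linarith))
    obtain ⟨r, rfl⟩ : ∃ r, t' = 2 * m - r := ⟨2 * m - t', by ring⟩
    rw [← W_add hu s' m, Wm] at h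
    have e1 := congrArg Complex.re h
    have e2 := congrArg Complex.im h
    simp only [Complex.add_re, Complex.conj_re, Complex.zero_re, Complex.add_im, Complex.conj_im,
      Complex.zero_im] at e1 e2
    rcases lt_trichotomy s' r with q | q | q
    · rw [← W_add hu s' r m, Complex.add_im] at e2
      have := key s' r q (by linarith) (by linarith)
      linarith [fp s' (by linarith), fp r (by linarith)]
    · rw [← q] at e1 ⊢
      rcases lt_trichotomy s' s with w | w | w
      · linarith [fp s' w]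
      · rw [w]; exact ⟨rfl, rfl⟩
      · linarith [fn s' w d]
    · rw [← W_add hu r s' m, Complex.add_im] at e2
      have := key r s' q d.le (by linarith)
      linarith [fp s' (by linarith), fp r (by linarith)]
  · rintro ⟨rfl, rfl⟩; exact h0
  · have cW := continuous_W_right hu s
    have c2 : Continuous fun τ => -2 * ((W u s τ).re * (u τ).im) := by fun_prop
    have e : ∀ τ, (W u s τ * (starRingEnd ℂ) (u τ)).im =
        ((u τ).re * (W u s τ).im + (W u s τ).re * (u τ).im) + -2 * ((W u s τ).re * (u τ).im) := by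
      intro τ; simp; ring
    rw [A]
    simp only [e]
    rw [intervalIntegral.integral_add (Continuous.intervalIntegrable (by fun_prop) _ _)
      (c2.intervalIntegrable _ _), intervalIntegral.integral_eq_sub_of_hasDerivAt
        (fun τ _ => (hasDerivAt_re (hasDerivAt_W hu s τ)).mul (hasDerivAt_im (hasDerivAt_W hu s τ)))
        (Continuous.intervalIntegrable (by fun_prop) _ _),
      ← intervalIntegral.integral_add_adjacent_intervals (b := m) (c2.intervalIntegrable _ _)
        (c2.intervalIntegrable _ _)]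
    have p1 := intervalIntegral.intervalIntegral_pos_of_pos_on (c2.intervalIntegrable s m)
      (fun τ hτ => by
        have := fn τ hτ.1 hτ.2
        rw [← W_add hu s τ m, Complex.add_re] at hs
        nlinarith [mul_pos (neg_pos.2 this) (neg_pos.2 (im τ (s1.trans hτ.1) hτ.2))])
      (s2.trans hbm)
    have p2 := intervalIntegral.intervalIntegral_pos_of_pos_on (c2.intervalIntegrable m (2 * m - s))
      (fun τ hτ => by
        obtain ⟨r, rfl⟩ : ∃ r, τ = 2 * m - r := ⟨2 * m - τ, by ring⟩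
        have r1 : s < r := by linarith [hτ.2]
        have r2 : r < m := by linarith [hτ.1]
        rw [← W_add hu s m, Wm, sym, Complex.add_re, hs, Complex.conj_re, Complex.conj_im]
        nlinarith [mul_pos (neg_pos.2 (fn r r1 r2)) (neg_pos.2 (im r (s1.trans r1) r2))])
      (by linarith)
    simp only [Pi.mul_apply, h0, W_self, Complex.zero_re, zero_mul]
    linarith
  · rw [sym, Complex.conj_re, Complex.conj_im]
    nlinarith [mul_pos (rp s s2) (neg_pos.2 (im s s1 (s2.trans hbm)))]

/-- an even kernel, positive on its interval -/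
structure EK (δ : ℝ) (g : ℝ → ℝ) : Prop where
  ker : Ker δ g
  even : ∀ σ, g (-σ) = g σ
  pos : ∀ σ, |σ| < δ → 0 < g σ

theorem exists_ek {δ : ℝ} (hδ : 0 < δ) : ∃ g, EK δ g := by
  let φ : ContDiffBump (0 : ℝ) := ⟨δ / 2, δ, by linarith, by linarith⟩
  refine ⟨φ.normed volume, ⟨φ.contDiff_normed, φ.support_normed_eq.subset, φ.nonneg_normed,
    φ.integral_normed⟩, φ.normed_neg, fun σ hσ => (φ.nonneg_normed σ).lt_of_ne' ?_⟩
  exact φ.support_normed_eq.superset (mem_ball_zero_iff.2 hσ)

namespace EK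

variable {δ : ℝ} {g : ℝ → ℝ}

theorem zero (h : EK δ g) {σ : ℝ} (hσ : ¬ |σ| < δ) : g σ = 0 := by
  by_contra c
  exact hσ (mem_ball_zero_iff.1 (h.ker.2.1 c))

theorem supp (h : EK δ g) : HasCompactSupport g :=
  HasCompactSupport.intro (isCompact_closedBall 0 δ) fun _ hσ =>
    h.zero fun c => hσ (mem_closedBall_zero_iff.2 c.le)

theorem int (h : EK δ g) {k : ℝ → ℝ} (hk : Continuous k) : Integrable fun σ => g σ * k σ :=
  (h.ker.1.continuous.mul hk).integrable_of_hasCompactSupport h.supp.mul_right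

theorem congr (h : EK δ g) {k k' : ℝ → ℝ} (e : ∀ σ, |σ| < δ → k σ = k' σ) :
    ∫ σ, g σ * k σ = ∫ σ, g σ * k' σ := by
  congr 1; funext σ
  by_cases c : |σ| < δ
  · rw [e σ c]
  · rw [h.zero c, zero_mul, zero_mul]

theorem int_pos (h : EK δ g) {k : ℝ → ℝ} (hk : Continuous k) (h0 : ∀ σ, |σ| < δ → 0 ≤ k σ)
    {σ : ℝ} (h1 : |σ| < δ) (h2 : 0 < k σ) : 0 < ∫ σ, g σ * k σ := by
  refine (h.ker.1.continuous.mul hk).integral_pos_of_hasCompactSupport_nonneg_nonzero
    h.supp.mul_right (fun σ => ?_) (mul_pos (h.pos σ h1) h2).ne'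
  show 0 ≤ g σ * k σ
  by_cases c : |σ| < δ
  · exact mul_nonneg (h.pos σ c).le (h0 σ c)
  · rw [h.zero c, zero_mul]

theorem int_sin (h : EK δ g) : ∫ σ, g σ * sin σ = 0 := by
  have := integral_neg_eq_self (fun σ => g σ * sin σ) volume
  simp only [h.even, sin_neg, mul_neg, integral_neg] at this
  linarith

theorem cv_cos (h : EK δ g) (x : ℝ) : ∫ σ, g σ * cos (x - σ) = (∫ σ, g σ * cos σ) * cos x := by
  have e : ∀ σ, g σ * cos (x - σ) = g σ * cos σ * cos x + g σ * sin σ * sin x := fun σ => by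
    rw [cos_sub]; ring
  simp only [e]
  rw [integral_add ((h.int continuous_cos).mul_const _) ((h.int continuous_sin).mul_const _),
    integral_mul_const, integral_mul_const, h.int_sin, zero_mul, add_zero]

theorem cv_sin (h : EK δ g) (x : ℝ) : ∫ σ, g σ * sin (x - σ) = (∫ σ, g σ * cos σ) * sin x := by
  have e : ∀ σ, g σ * sin (x - σ) = g σ * cos σ * sin x - g σ * sin σ * cos x := fun σ => by
    rw [sin_sub]; ring
  simp only [e]
  rw [integral_sub ((h.int continuous_cos).mul_const _) ((h.int continuous_sin).mul_const _),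
    integral_mul_const, integral_mul_const, h.int_sin, zero_mul, sub_zero]

theorem intc (h : EK δ g) {u : ℝ → ℂ} (hu : Continuous u) (t : ℝ) :
    Integrable fun σ => g σ • u (t - σ) :=
  (h.ker.1.continuous.smul (hu.comp (by fun_prop))).integrable_of_hasCompactSupport
    h.supp.smul_right

theorem cv_re (h : EK δ g) {u : ℝ → ℂ} (hu : Continuous u) (t : ℝ) :
    (cv g u t).re = ∫ σ, g σ * (u (t - σ)).re := by
  rw [cv_eq, ← Complex.reCLM_apply, ← Complex.reCLM.integral_comp_comm (h.intc hu t)]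
  simp

theorem cv_im (h : EK δ g) {u : ℝ → ℂ} (hu : Continuous u) (t : ℝ) :
    (cv g u t).im = ∫ σ, g σ * (u (t - σ)).im := by
  rw [cv_eq, ← Complex.imCLM_apply, ← Complex.imCLM.integral_comp_comm (h.intc hu t)]
  simp

theorem cv_conj (g : ℝ → ℝ) (u : ℝ → ℂ) (t : ℝ) :
    cv g (fun τ => (starRingEnd ℂ) (u τ)) t = (starRingEnd ℂ) (cv g u t) := by
  rw [cv_eq, cv_eq, ← integral_conj]
  simp

theorem cv_one (h : EK δ g) {u : ℝ → ℂ} (hu : Continuous u) {t : ℝ}
    (e : ∀ τ, |τ - t| < δ → u τ = 1) : cv g u t = 1 :=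
  sub_eq_zero.1 (norm_le_zero_iff.1 (h.ker.dist_le hu le_rfl fun τ hτ => by simp [e τ hτ]))

theorem kink_red (h : EK δ g) (h0 : 0 < δ) (h1 : δ ≤ 1 / 2) (p : ℝ) :
    ∃ s t, p - 1 < s ∧ s < t ∧ t < p + 9 ∧
      (∀ s' t', s' < t' → (W (cv g (red p 1)) s' t' = 0 ↔ s' = s ∧ t' = t)) ∧
      0 < A (cv g (red p 1)) s t ∧ (cv g (red p 1) s).re * (cv g (red p 1) t).im ≠
        (cv g (red p 1) s).im * (cv g (red p 1) t).re := by
  have hpi := pi_gt_three
  have hpi' := pi_lt_four
  have cr := continuous_red p 1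
  have cp : Continuous (ph p 1) := by unfold ph; fun_prop
  have cu : Continuous (cv g (red p 1)) :=
    (SC_cv (P := Unit) h.ker.1 (h.ker.zero (by linarith)) (u := fun _ => red p 1)
      (cr.comp continuous_snd)).cont1 ()
  have z0 : |(0 : ℝ)| < δ := by simpa
  have hc : 0 < ∫ σ, g σ * cos σ := h.int_pos continuous_cos
    (fun σ hσ => (cos_pos_of_mem_Ioo ⟨by linarith [(abs_lt.1 hσ).1], by linarith [(abs_lt.1 hσ).2]⟩).le)
    z0 (by simp)
  have pm : ∀ τ σ, p + δ ≤ τ → τ ≤ p + π → |σ| < δ → ph p 1 (τ - σ) = τ - p - σ := by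
    intro τ σ a b c
    rw [ph_mid one_pos (by linarith [(abs_lt.1 c).2]) (by linarith [(abs_lt.1 c).1])]; ring
  have ps : ∀ τ σ, τ ≤ p + δ → |σ| < δ → 0 ≤ ph p 1 (τ - σ) ∧ ph p 1 (τ - σ) ≤ 1 :=
    fun τ σ a c => ⟨le_max_left _ _,
      max_le zero_le_one (min_le_of_left_le (by linarith [(abs_lt.1 c).1]))⟩
  have mre : ∀ τ, p + δ ≤ τ → τ ≤ p + π →
      (cv g (red p 1) τ).re = (∫ σ, g σ * cos σ) * cos (τ - p) := fun τ a b => by
    rw [h.cv_re cr, ← h.cv_cos]
    exact h.congr fun σ c => by rw [red_re, pm τ σ a b c]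
  refine (kink cu (a := p - δ) (b := p + π / 2) (m := p + π)
    (by linarith) (by linarith) (fun τ => ?_)
    (fun τ hτ => h.cv_one cr fun σ hσ => red_left one_pos (by linarith [(abs_lt.1 hσ).2]))
    (fun τ a b => ?_) (fun τ a => ?_) (fun τ a b => ?_) ?_).elim
    fun s ⟨t, a1, a2, a3, a4⟩ => ⟨s, t, by linarith, a2, by linarith, a4⟩
  · rw [← cv_conj, cv_eq, cv_eq, ← integral_neg_eq_self]
    congr 1; funext σ
    rw [h.even]
    congr 1
    have e : ph p 1 (2 * (p + π) - τ - -σ) = 2 * π - ph p 1 (τ - σ) := by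
      rcases le_total (τ - σ) p with c | c
      · rw [ph_left one_pos c, ph_right one_pos (by linarith), sub_zero]
      rcases le_total (τ - σ) (p + 2 * π * 1) with d | d
      · rw [ph_mid one_pos c d, ph_mid one_pos (by linarith) (by linarith)]; ring
      · rw [ph_right one_pos d, ph_left one_pos (by linarith), sub_self]
    apply Complex.ext
    · rw [Complex.conj_re, red_re, red_re, e, cos_two_pi_sub]
    · rw [Complex.conj_im, red_im, red_im, e, sin_two_pi_sub]
  · rw [h.cv_im cr]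
    simp only [red_im, mul_neg, integral_neg, neg_lt_zero]
    rcases le_total τ (p + δ) with c | c
    · refine h.int_pos (by fun_prop) (fun σ hσ => sin_nonneg_of_nonneg_of_le_pi (ps τ σ c hσ).1
        (by linarith [(ps τ σ c hσ).2])) (σ := (τ - p - δ) / 2)
        (abs_lt.2 ⟨by linarith, by linarith⟩) ?_
      rw [ph_mid one_pos (by linarith) (by linarith)]
      exact sin_pos_of_pos_of_lt_pi (by linarith) (by linarith)
    · rw [h.congr (k' := fun σ => sin (τ - p - σ)) fun σ hσ => by rw [pm τ σ c b.le hσ], h.cv_sin]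
      exact mul_pos hc (sin_pos_of_pos_of_lt_pi (by linarith) (by linarith))
  · rcases le_total τ (p + δ) with c | c
    · rw [h.cv_re cr]
      have k : ∀ σ, |σ| < δ → 0 < (red p 1 (τ - σ)).re := fun σ hσ => by
        rw [red_re]
        exact cos_pos_of_mem_Ioo ⟨by linarith [(ps τ σ c hσ).1], by linarith [(ps τ σ c hσ).2]⟩
      exact h.int_pos (by fun_prop) (fun σ hσ => (k σ hσ).le) z0 (k 0 z0)
    · rw [mre τ c (by linarith)]
      exact mul_pos hc (cos_pos_of_mem_Ioo ⟨by linarith, by linarith⟩)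
  · rw [mre τ (by linarith) b.le]
    exact mul_neg_of_pos_of_neg hc (cos_neg_of_pi_div_two_lt_of_lt (by linarith) (by linarith))
  · rw [W_re cu]
    refine lt_of_lt_of_le ?_ (intervalIntegral.integral_mono_on (f := fun τ =>
      (∫ σ, g σ * cos σ) * cos (τ - p)) (by linarith)
      (Continuous.intervalIntegrable (by fun_prop) _ _)
      ((Complex.continuous_re.comp cu).intervalIntegrable _ _) fun τ _ => ?_)
    · rw [intervalIntegral.integral_const_mul, intervalIntegral.integral_comp_sub_right cos,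
        integral_cos, show p + π - p = π by ring, show p - δ - p = -δ by ring, sin_pi, sin_neg]
      exact mul_pos hc (by linarith [sin_pos_of_pos_of_lt_pi h0 (by linarith)])
    · rw [h.cv_re cr, ← h.cv_cos]
      refine integral_mono (h.int (by fun_prop)) (h.int (by fun_prop)) fun σ =>
        mul_le_mul_of_nonneg_left ?_ (h.ker.2.2.1 σ)
      rw [red_re]
      rcases le_total (τ - σ) p with c | c
      · rw [ph_left one_pos c, cos_zero]; exact cos_le_one _
      rcases le_total (τ - σ) (p + 2 * π * 1) with d | d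
      · rw [ph_mid one_pos c d]; apply le_of_eq; congr 1; ring
      · rw [ph_right one_pos d, cos_two_pi]; exact cos_le_one _

theorem twoKinks (h : EK δ g) (h0 : 0 < δ) (h1 : δ ≤ 1 / 2)
    (hg : Gd (cv g u0) (510 + 1) (8 * π + 1)) : TwoKinks (Leg 700 (NN 1 700 (cv g u0))) := by
  have hpi := pi_gt_three
  have hpi' := pi_lt_d2
  have hN := gd_NN (K := 700) hg (by norm_num) (by linarith) zero_le_one le_rfl
  have hl := isLeg_Leg hN.cont 700
  obtain ⟨s₁, t₁, a1, a2, a3, a4, a5, a6⟩ := h.kink_red h0 h1 (-500)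
  obtain ⟨s₂, t₂, b1, b2, b3, b4, b5, b6⟩ := h.kink_red h0 h1 500
  have g0 := h.ker.zero (by linarith)
  have e0 : ∀ t, t ≤ 600 → NN 1 700 (cv g u0) t = cv g u0 t := fun t ht => by
    rw [NN, tail_zero _ (Or.inl (by linarith))]; simp
  have e1 : ∀ t, t ≤ 0 → NN 1 700 (cv g u0) t = cv g (red (-500) 1) t := fun t ht => by
    rw [e0 t (by linarith)]
    exact cv_congr g0 fun τ hτ => by
      rw [u0, blue_left one_pos (by linarith [(abs_le.1 hτ).2]), mul_one]
  have e2 : ∀ t, -100 ≤ t → t ≤ 600 →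
      NN 1 700 (cv g u0) t = (starRingEnd ℂ) (cv g (red 500 1) t) := fun t ht ht' => by
    rw [e0 t ht', ← cv_conj]
    exact cv_congr g0 fun τ hτ => by
      rw [u0, red_right one_pos (by linarith [(abs_le.1 hτ).1]), one_mul]; rfl
  have w1 : ∀ s t, s < t → t ≤ 0 → W (NN 1 700 (cv g u0)) s t = W (cv g (red (-500) 1)) s t :=
    fun s t a b => W_congr a.le fun τ hτ => e1 τ (hτ.2.trans b)
  have w2 : ∀ s t, s < t → -100 ≤ s → t ≤ 600 → W (NN 1 700 (cv g u0)) s t =
      (starRingEnd ℂ) (W (cv g (red 500 1)) s t) := fun s t a b c => by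
    rw [← W_conj]
    exact W_congr a.le fun τ hτ => e2 τ (b.trans hτ.1) (hτ.2.trans c)
  have c1 : W (NN 1 700 (cv g u0)) s₁ t₁ = 0 := by
    rw [w1 _ _ a2 (by linarith)]; exact (a4 _ _ a2).2 ⟨rfl, rfl⟩
  have c2 : W (NN 1 700 (cv g u0)) s₂ t₂ = 0 := by
    rw [w2 _ _ b2 (by linarith) (by linarith), (b4 _ _ b2).2 ⟨rfl, rfl⟩, map_zero]
  refine ⟨s₁, t₁, s₂, t₂, a2, by linarith, b2, fun s t hst => ?_, ?_, ?_, ?_, ?_⟩
  · have e : ((Leg 700 (NN 1 700 (cv g u0)) s).1 = (Leg 700 (NN 1 700 (cv g u0)) t).1 ∧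
        (Leg 700 (NN 1 700 (cv g u0)) s).2.1 = (Leg 700 (NN 1 700 (cv g u0)) t).2.1) ↔
        W (NN 1 700 (cv g u0)) s t = 0 := by
      rw [Complex.ext_iff, hl.W_re' hN.cont, hl.W_im' hN.cont, Complex.zero_re, Complex.zero_im,
        sub_eq_zero, sub_eq_zero, eq_comm, eq_comm (a := (Leg 700 (NN 1 700 (cv g u0)) s).2.1)]
    rw [e]
    constructor
    · intro hW
      have d := hN.dev s t hst.le
      rw [hW, Complex.zero_re] at d
      rcases le_or_gt t 0 with c | c
      · rw [w1 s t hst c] at hW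
        exact Or.inl ((a4 s t hst).1 hW)
      rcases le_or_gt t 600 with c' | c'
      · rw [w2 s t hst (by linarith) c', map_eq_zero] at hW
        exact Or.inr ((b4 s t hst).1 hW)
      · have := W_re_pos hN.cont hst fun σ hσ => NN_pos hg (K := 700) (by norm_num) zero_le_one σ
          (le_abs.2 (Or.inl (by linarith [hσ.1])))
        rw [hW] at this
        exact absurd this (lt_irrefl _)
    · rintro (⟨rfl, rfl⟩ | ⟨rfl, rfl⟩)
      · exact c1
      · exact c2
  · rw [(hl s₁).deriv, (hl t₁).deriv, e1 s₁ (by linarith), e1 t₁ (by linarith)]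
    exact a6
  · rw [(hl s₂).deriv, (hl t₂).deriv, e2 s₂ (by linarith) (by linarith),
      e2 t₂ (by linarith) (by linarith)]
    simp only [Complex.conj_re, Complex.conj_im, mul_neg, neg_mul, ne_eq, neg_inj]
    exact b6
  · have := hl.A_eq hN.cont c1
    rw [A_congr a2.le fun τ hτ => e1 τ (by linarith [hτ.2])] at this
    linarith
  · have := hl.A_eq hN.cont c2
    rw [A_congr b2.le fun τ hτ => e2 τ (by linarith [hτ.1]) (by linarith [hτ.2]), A_conj] at this
    linarith

end EK

end Pool.Agent.MP_b8ade4_gt
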