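import Pool.Agent.MP_b8ade4_gt.h67.Fold
import Pool.Agent.MP_b8ade4_gt.h67.Zig

/-! Assembly. -/

namespace Pool.Agent.MP_b8ade4_gt

open Set Filter Topology unitInterval

theorem core : ∃ (γ : Long) (α : Path γ γ), TwoKinks γ.1 ∧ (∀ θ, InBox 1000 (α θ).1) ∧
    (∀ T ≥ 1000, ∀ δ : Long, InBox T δ.1 → ∀ (c : Long) (b : Path c c),
      (∀ θ, (b θ).1 = glue T (α θ).1 δ.1) → ¬ IsOfFinOrder (cls b)) ∧
    ∃ (d : Bx 2000) (β : Path d d), (∀ θ, (β θ).1.1 = glue 1000 (α θ).1 (α (σ θ)).1) ∧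
      β.Homotopic (Path.refl d) := by
  obtain ⟨l, hl, hl', hW, H, hHc, hHg, hH0, hH1⟩ := raw_null
  have hl1 : l ≤ 1 := by linarith
  have hpi := Real.pi_lt_d2
  have hpi0 := Real.pi_pos
  have hac : Continuous fun q : I × ℝ => al l q.1 q.2 :=
    B.continuous_al hl hl1 (by fun_prop) continuous_snd
  obtain ⟨δ₁, hδ₁, m₁⟩ := moll_gd (x := fun θ : I => al l θ) (m := 510) (by norm_num) hac
    (fun θ => hW.emb_b θ) (fun θ => B.L1_al hl hl1 θ) fun θ t ht => B.al_far hl hl1 θ ht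
  obtain ⟨δ₂, hδ₂, m₂⟩ := moll_gd (x := H) (m := 1510) (by norm_num) hHc (fun q => (hHg q).1)
    (fun q => (hHg q).2.1) fun q => (hHg q).2.2
  have hδ : 0 < min (min δ₁ δ₂) (1 / 2) := lt_min (lt_min hδ₁ hδ₂) one_half_pos
  have hδ1 : min (min δ₁ δ₂) (1 / 2) ≤ 1 := (min_le_right _ _).trans (by norm_num)
  obtain ⟨g, hk⟩ := exists_ek hδ
  have hg := hk.ker
  have hg0 := hg.zero hδ1
  replace m₁ := m₁ _ g ((min_le_left _ _).trans (min_le_left _ _)) hδ1 hg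
  replace m₂ := m₂ _ g ((min_le_left _ _).trans (min_le_right _ _)) hδ1 hg
  have sv : SC fun θ : I => cv g (al l θ) := SC_cv hg.1 hg0 hac
  have sH : SC fun q => cv g (H q) := SC_cv hg.1 hg0 hHc
  have gv : ∀ θ : I, Gd (cv g (al l θ)) (510 + 1) (8 * Real.pi + 1) := fun θ => by
    simpa using m₁ θ 1 zero_le_one le_rfl
  have gH : ∀ q, Gd (cv g (H q)) (1510 + 1) (16 * Real.pi + 1) := fun q => by
    simpa using m₂ q 1 zero_le_one le_rfl
  have a10 : al l ((1 : I) : ℝ) = al l ((0 : I) : ℝ) := funext fun t => B.al_one l t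
  have a0 : al l ((0 : I) : ℝ) = u0 := funext fun t => B.al_zero l t
  have hK : (510 + 1 : ℝ) + (8 * Real.pi + 1) + 11 ≤ 700 := by linarith
  let F : C(I, {γ : Long // InBox 700 γ.1}) := mkB sv gv (by norm_num) hK
  let α : Path (F 0).1 (F 0).1 :=
    ⟨⟨fun θ => (F θ).1, by fun_prop⟩, rfl, congrArg Subtype.val (mkB_ext (congrArg (cv g) a10) rfl rfl)⟩
  have hα : ∀ θ, (α θ).1 = Leg 700 (NN 1 700 (cv g (al l θ))) := fun θ => rfl
  have hbox : ∀ θ, InBox 1000 (α θ).1 := fun θ => Leg_inBox (gv θ) (by norm_num) hK (by norm_num)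
  refine ⟨(F 0).1, α, ?_, hbox, fun T hT δ hδ c b hb => ?_, ?_⟩
  · show TwoKinks (Leg 700 (NN 1 700 (cv g (al l ((0 : I) : ℝ)))))
    rw [a0]
    exact hk.twoKinks hδ (min_le_right _ _) (a0 ▸ gv 0)
  · refine inf_order hl hl' hW α (K := 700) (B := 8 * Real.pi + 1)
      (n := fun q => NN q.2 700 fun t => (1 - q.2 : ℝ) * al l q.1 t + q.2 * cv g (al l q.1) t)
      (cont_NN (u := fun (q : I × I) t => (1 - q.2 : ℝ) * al l q.1 t + q.2 * cv g (al l q.1) t)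
        ?_ 700 (τ := fun q : I × I => q.2) (by fun_prop))
      (fun q => gd_NN (m₁ q.1 q.2 q.2.2.1 q.2.2.2) (by norm_num) hK q.2.2.1 q.2.2.2)
      (fun θ => ?_) (fun θ => ?_) (fun τ => by rw [a10]) (by linarith) (by linarith)
      (fun θ => (hbox θ).mono hT) hδ b hb
    · have k1 : Continuous fun q : (I × I) × ℝ => al l q.1.1 q.2 :=
        B.continuous_al hl hl1 (by fun_prop) continuous_snd
      have k2 : Continuous fun q : (I × I) × ℝ => cv g (al l q.1.1) q.2 :=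
        (sv.comp (g := fun q : I × I => q.1) continuous_fst).cont
      have k3 : Continuous fun q : (I × I) × ℝ => ((1 - q.1.2 : ℝ) : ℂ) := by fun_prop
      have k4 : Continuous fun q : (I × I) × ℝ => (((q.1.2 : I) : ℝ) : ℂ) := by fun_prop
      exact (k3.fun_mul k1).fun_add (k4.fun_mul k2)
    · simp [NN_zero]
    · rw [hα, lag_Leg (gd_NN (gv θ) (by norm_num) hK zero_le_one le_rfl).cont]
      simp
  · have sn : SC fun q : I × I => NN (1 - q.2) 700 (cv g (al l q.1)) :=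
      SC_NN (sv.comp continuous_fst) 700 (by fun_prop)
    have gn : ∀ q : I × I, Gd (NN (1 - q.2) 700 (cv g (al l q.1))) 700 (8 * Real.pi + 1) :=
      fun q => gd_NN (gv q.1) (by norm_num) hK (by linarith [q.2.2.2]) (by linarith [q.2.2.1])
    have sU : SC fun (q : I × I) t => NN (1 - q.2) 700 (cv g (al l q.1)) (t + 1000) *
        NN (1 - q.2) 700 (cv g (al l (σ q.1))) (t - 1000) :=
      (sn.shift (c := fun _ => 1000) continuous_const).mul
        ((sn.comp (g := fun q : I × I => (σ q.1, q.2)) (by fun_prop)).shift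
          (c := fun _ => -1000) continuous_const)
    have gU := fun q : I × I => gd_glue (r := 1000) (gn q) (gn (σ q.1, q.2)) (by norm_num)
      (by linarith)
    let F₁ : C(I × I, Bx 2000) := mkB sU gU (by linarith) (by linarith)
    let F₂ : C(I × I, Bx 2000) := mkB sH gH (by norm_num) (by linarith)
    have e01 : ∀ τ, F₁ (0, τ) = F₁ (1, τ) := fun τ => mkB_ext (by
      simp only [symm_zero, symm_one, a10]) rfl rfl
    let β₁ : Path (F₁ (0, 0)) (F₁ (0, 0)) := ⟨⟨fun θ => F₁ (θ, 0), by fun_prop⟩, rfl, (e01 0).symm⟩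
    let β₂ : Path (F₂ (0, 0)) (F₂ (0, 0)) :=
      ⟨⟨fun θ => F₂ (θ, 0), by fun_prop⟩, rfl, mkB_ext (congrArg (cv g) (hH1 0 0).2.2) rfl rfl⟩
    have n₂ : β₂.Homotopic (Path.refl _) :=
      null_of_free F₂ β₂ (Path.refl (F₂ (0, 0))) (fun _ => rfl)
        (fun θ => mkB_ext (congrArg (cv g) (hH1 θ 0).1) rfl rfl)
        (fun τ => mkB_ext (congrArg (cv g) ((hH1 0 τ).2.1.trans (hH1 0 τ).2.2.symm)) rfl rfl)
        (Path.Homotopic.refl _)
    refine ⟨_, β₁, fun θ => ?_,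
      null_of_free F₁ β₁ β₂ (fun _ => rfl) (fun θ => mkB_ext ?_ rfl rfl) e01 n₂⟩
    · rw [hα, hα, ← Leg_glue (gv θ) (gv (σ θ)) (by norm_num) hK (by norm_num),
        show (2 : ℝ) * 1000 = 2000 by norm_num]
      show Leg 2000 (NN 1 2000 _) = _
      simp
    · funext t
      have e : H (θ, 0) = fun t => al l θ (t + 1000) * al l (σ θ) (t + -1000) :=
        funext fun t => hH0 θ t
      simp only [Icc.coe_one, sub_self, NN_zero, e]
      by_cases ht : t ≤ 0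
      · rw [(gv (σ θ)).one _ (le_abs.2 (Or.inr (by linarith))), mul_one, ← cv_shift]
        refine cv_congr hg0 fun τ hτ => ?_
        rw [B.al_far hl hl1 (σ θ) (le_abs.2 (Or.inr (by linarith [(abs_le.1 hτ).2]))), mul_one]
      · rw [(gv θ).one _ (le_abs.2 (Or.inl (by linarith [not_le.1 ht]))), one_mul, sub_eq_add_neg,
          ← cv_shift]
        refine cv_congr hg0 fun τ hτ => ?_
        rw [B.al_far hl hl1 θ (le_abs.2 (Or.inl (by linarith [(abs_le.1 hτ).1, not_le.1 ht]))),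
          one_mul]

theorem main2 : ∃ (γ₀ : Long) (T₀ : ℝ), TwoKinks γ₀.1 ∧ InBox T₀ γ₀.1 ∧
    ∀ T ≥ T₀, ∀ δ₁ δ₂ : Long, InBox T δ₁.1 → InBox T δ₂.1 →
      ∃ c₁ c₂ : Long, c₁.1 = glue T δ₁.1 γ₀.1 ∧ c₂.1 = glue T γ₀.1 δ₂.1 ∧
        InBox (2 * T) c₁.1 ∧ InBox (2 * T) c₂.1 ∧
        ∀ R ≥ 2 * T, ∀ γ₁ γ₂ : Long, JoinedIn {γ : Long | InBox R γ.1} c₁ γ₁ →
          JoinedIn {γ : Long | InBox R γ.1} c₂ γ₂ →
          ∃ (α₁ : Path γ₁ γ₁) (α₂ : Path γ₂ γ₂), (∀ θ, InBox R (α₁ θ).1 ∧ InBox R (α₂ θ).1) ∧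
            ¬ IsOfFinOrder (cls α₂) ∧
            ∃ (δ : Long) (β : Path δ δ), (∀ θ, (β θ).1 = glue R (α₁ θ).1 (α₂ θ).1) ∧
              ∃ H : β.Homotopy (Path.refl δ), ∀ q, InBox (2 * R) (H q).1 := by
  obtain ⟨γ, α, hk, hα, hinf, d, β₀, hβ, hnull⟩ := core
  have hγ : InBox 1000 γ.1 := by simpa using hα 0
  refine ⟨γ, 1000, hk, hγ, fun T hT δ₁ δ₂ h₁ h₂ => ?_⟩
  have hT' : (1000 : ℝ) ≤ T := hT
  have hT0 : 0 ≤ T := by linarith
  have hαT : ∀ θ, InBox T (α θ).1 := fun θ => (hα θ).mono hT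
  have cs : Continuous fun θ => α (σ θ) := by fun_prop
  let G₁ : ∀ K, T + T ≤ K → C(I, Bx K) := fun K hK => glueC (fun _ => T) (fun _ => δ₁) α
    continuous_const continuous_const α.continuous (fun _ => h₁) hαT hT0 (fun _ => le_rfl)
    fun _ => hK
  let G₂ : ∀ K, T + T ≤ K → C(I, Bx K) := fun K hK => glueC (fun _ => T) (fun θ => α (σ θ))
    (fun _ => δ₂) continuous_const cs continuous_const (fun θ => hαT (σ θ)) (fun _ => h₂) hT0
    (fun _ => le_rfl) fun _ => hK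
  have v₁ : ∀ K hK θ, (G₁ K hK θ).1.1 = glue T δ₁.1 (α θ).1 := fun K hK θ => glueC_val θ
  have v₂ : ∀ K hK θ, (G₂ K hK θ).1.1 = glue T (α (σ θ)).1 δ₂.1 := fun K hK θ => glueC_val θ
  have h2 : T + T ≤ 2 * T := by linarith
  refine ⟨(G₁ _ h2 0).1, (G₂ _ h2 0).1, by rw [v₁, α.source], by rw [v₂, symm_zero, α.target],
    (G₁ _ h2 0).2, (G₂ _ h2 0).2, fun R hR γ₁ γ₂ j₁ j₂ => ?_⟩
  have hR' : T + T ≤ R := h2.trans hR
  obtain ⟨p₁⟩ : Joined (G₁ R hR' 0) ⟨γ₁, j₁.mem.2⟩ := j₁.joined_subtype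
  obtain ⟨p₂⟩ : Joined (G₂ R hR' 0) ⟨γ₂, j₂.mem.2⟩ := j₂.joined_subtype
  let A₁ : Path (G₁ R hR' 0) (G₁ R hR' 0) := ⟨G₁ R hR', rfl, Bx.ext (by
    show (G₁ R hR' 1).1.1 = _
    rw [v₁, v₁, α.source, α.target])⟩
  let A₂ : Path (G₂ R hR' 0) (G₂ R hR' 0) := ⟨G₂ R hR', rfl, Bx.ext (by
    show (G₂ R hR' 1).1.1 = _
    rw [v₂, v₂, symm_zero, symm_one, α.source, α.target])⟩
  let S : C(Bx R × Bx R, Bx (2 * R)) := glueC (fun _ => R) (fun z => z.1.1) (fun z => z.2.1)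
    continuous_const (by fun_prop) (by fun_prop) (fun z => z.1.2) (fun z => z.2.2) (by linarith)
    (fun _ => le_rfl) fun _ => by linarith
  have vS : ∀ z, (S z).1.1 = glue R z.1.1.1 z.2.1.1 := fun z => glueC_val z
  let M : C(Bx R, Bx (2 * R)) := triC (fun _ => R + T) (fun _ => δ₁) (fun z => z.1) (fun _ => δ₂)
    continuous_const continuous_const (by fun_prop) continuous_const (fun _ => h₁)
    (fun z => z.2.mono (by linarith)) (fun _ => h₂) hT0 (fun _ => by linarith)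
    fun _ => by linarith
  have vM : ∀ z, (M z).1.1 = tri (R + T) δ₁.1 z.1.1 δ₂.1 := fun _ => rfl
  have q0 : ∀ q : I × I, 0 ≤ (q.2 : ℝ) * (R - T - 1000) := fun q =>
    mul_nonneg q.2.2.1 (by linarith)
  have q1 : ∀ q : I × I, (q.2 : ℝ) * (R - T - 1000) ≤ R - T - 1000 := fun q =>
    mul_le_of_le_one_left (by linarith) q.2.2.2
  let F : C(I × I, Bx R) := glueC (fun q => R - T - q.2 * (R - T - 1000)) (fun q => α q.1)
    (fun q => α (σ q.1)) (by fun_prop) (by fun_prop) (by fun_prop) (fun q => hα q.1)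
    (fun q => hα (σ q.1)) (by norm_num) (fun q => by linarith [q1 q]) fun q => by linarith [q0 q]
  have vF : ∀ q, (F q).1.1 = glue (R - T - q.2 * (R - T - 1000)) (α q.1).1 (α (σ q.1)).1 :=
    fun q => glueC_val q
  let J : C(Bx 2000, Bx R) := ⟨fun z => ⟨z.1, z.2.mono (by linarith)⟩, by fun_prop⟩
  have n₀ : ((A₁.prod A₂).map S.continuous).Homotopic (Path.refl _) := by
    refine null_of_free (M.comp F) _ (β₀.map (M.comp J).continuous) (fun θ => Bx.ext ?_)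
      (fun θ => congrArg M (Bx.ext ?_)) (fun τ => congrArg M (Bx.ext ?_)) ?_
    · show (M (F (θ, 0))).1.1 = (S (G₁ R hR' θ, G₂ R hR' θ)).1.1
      rw [vM, vS, vF, v₁, v₂, glue_glue h₁ (hαT θ) (hαT (σ θ)) h₂ (v₁ R hR' θ ▸ (G₁ R hR' θ).2)
        (v₂ R hR' θ ▸ (G₂ R hR' θ).2) (by linarith)]
      simp
    · show (F (θ, 1)).1.1 = (β₀ θ).1.1
      rw [vF, hβ]
      simp
    · rw [vF, vF]
      simp
    · exact hnull.map (M.comp J)
  let v : C(Bx R, Long) := ⟨Subtype.val, continuous_subtype_val⟩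
  obtain ⟨H⟩ := null_conj ((p₁.prod p₂).map S.continuous) n₀
  refine ⟨(p₁.map v.continuous).symm.trans ((A₁.map v.continuous).trans (p₁.map v.continuous)),
    (p₂.map v.continuous).symm.trans ((A₂.map v.continuous).trans (p₂.map v.continuous)),
    fun θ => ?_, ?_, _, Path.map _ continuous_subtype_val, fun θ => ?_,
    (H.map ⟨Subtype.val, continuous_subtype_val⟩).cast rfl (by ext; rfl), fun q => (H q).2⟩
  · simp only [Path.trans_apply]
    split_ifs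
    · exact ⟨(p₁ _).2, (p₂ _).2⟩
    · exact ⟨(A₁ _).2, (A₂ _).2⟩
    · exact ⟨(p₁ _).2, (p₂ _).2⟩
  · rw [fin_conj, ← fin_symm]
    refine hinf T hT δ₂ h₂ _ _ fun θ => ?_
    show (G₂ R hR' (σ θ)).1.1 = _
    rw [v₂, symm_symm]
  · simp only [Path.map_coe, Function.comp_apply, Path.trans_apply]
    split_ifs <;> exact vS _

end Pool.Agent.MP_b8ade4_gt
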